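import Mathlib

/-!
The hypercube graph and the number of its Hamiltonian circuits.
-/

namespace Pool.Agent.Lib.MP_f73734_co

/-- The `n`-dimensional cube graph: the vertices are the elements of `{0,1}^n`, and two vertices
are adjacent when they differ in exactly one coordinate. -/
def cube (n : ℕ) : SimpleGraph (Fin n → Bool) where
  Adj x y := ∃! i, x i ≠ y i
  symm := ⟨by
    rintro x y ⟨i, hi, h⟩
    exact ⟨i, hi.symm, fun j hj => h j hj.symm⟩⟩
  loopless := ⟨by
    rintro x ⟨i, hi, -⟩
    exact hi rfl⟩

/-- The number of Hamiltonian circuits of a graph, each circuit counted once, as a subgraph. -/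
noncomputable def hamCount {V : Type*} [DecidableEq V] (G : SimpleGraph V) : ℕ :=
  Set.ncard {H : G.Subgraph | ∃ (v : V) (p : G.Walk v v), p.IsHamiltonianCycle ∧ p.toSubgraph = H}

end Pool.Agent.Lib.MP_f73734_co
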