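import Mathlib
import Pool.Agent.Lib.MP_f73734_co.Defs

/-!
Fink's theorem: every perfect matching of the complete graph on the vertices of the hypercube
extends, by a perfect matching of the hypercube, to a Hamiltonian circuit.
-/

namespace Pool.Agent.Lib.MP_f73734_co

open Finset

/-- A finite set invariant under a fixed-point-free involution has even cardinality. -/
theorem even_card_of_invol {V : Type*} [DecidableEq V] (S : Finset V) (g : V → V)
    (hg : ∀ v ∈ S, g v ∈ S) (hinv : ∀ v ∈ S, g (g v) = v) (hne : ∀ v ∈ S, g v ≠ v) :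
    Even S.card := by
  have hz : ∑ u ∈ S, (1 : ZMod 2) = 0 := by
    apply Finset.sum_involution (fun u _ => g u)
    · intro u _; decide
    · intro u hu _; exact hne u hu
    · intro u hu; exact hg u hu
    · intro u hu; exact hinv u hu
  rw [Finset.sum_const, nsmul_eq_mul, mul_one] at hz
  rwa [ZMod.natCast_eq_zero_iff_even] at hz

/-- On a finite type of even cardinality there is a fixed-point-free involution. -/
theorem exists_invol_of_even {V : Type*} [Fintype V] (h : Even (Fintype.card V)) :
    ∃ M : V → V, (∀ v, M (M v) = v) ∧ ∀ v, M v ≠ v := by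
  obtain ⟨k, hk⟩ := h
  have hc : Fintype.card V = Fintype.card (Fin k × Bool) := by
    rw [Fintype.card_prod, Fintype.card_fin, Fintype.card_bool]; omega
  let e : V ≃ Fin k × Bool := Fintype.equivOfCardEq hc
  refine ⟨fun v => e.symm ((e v).1, !(e v).2), ?_, ?_⟩
  · intro v; simp
  · intro v hv
    have := congrArg e hv
    rw [Equiv.apply_symm_apply] at this
    have h2 := congrArg Prod.snd this
    simp at h2

/-- Pairing lemma: if every class of an equivalence relation on a finite type has an even number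
of elements, there is a fixed-point-free involution which preserves the classes. -/
theorem exists_pairing {K : Type*} [Fintype K] (s : Setoid K)
    (h : ∀ a, Even (Nat.card {b // s.r a b})) :
    ∃ M : K → K, (∀ a, M (M a) = a) ∧ (∀ a, M a ≠ a) ∧ ∀ a, s.r a (M a) := by
  classical
  have h1 : ∀ q : Quotient s, ∃ M : {b : K // (⟦b⟧ : Quotient s) = q} → {b : K // (⟦b⟧ : Quotient s) = q},
      (∀ v, M (M v) = v) ∧ ∀ v, M v ≠ v := by
    intro q
    apply exists_invol_of_even
    induction q using Quotient.inductionOn with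
    | h a =>
      have h2 := h a
      rw [Nat.card_eq_fintype_card] at h2
      have h3 : Fintype.card {b : K // (⟦b⟧ : Quotient s) = ⟦a⟧} = Fintype.card {b // s.r a b} := by
        apply Fintype.card_congr
        apply Equiv.subtypeEquivRight
        intro b
        rw [Quotient.eq]
        exact ⟨fun h => s.symm' h, fun h => s.symm' h⟩
      rw [h3]
      exact h2
  choose M hM1 hM2 using h1
  refine ⟨fun a => (M ⟦a⟧ ⟨a, rfl⟩).1, ?_, ?_, ?_⟩
  · intro a
    have key : ∀ (q : Quotient s) (hq : (⟦a⟧ : Quotient s) = q) (b : K)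
        (hb : (⟦b⟧ : Quotient s) = q), (M q ⟨a, hq⟩).1 = b → (M q ⟨b, hb⟩).1 = a := by
      intro q hq b hb hab
      have : M q ⟨a, hq⟩ = ⟨b, hb⟩ := Subtype.ext hab
      rw [← this, hM1]
    have hb : (⟦(M ⟦a⟧ ⟨a, rfl⟩).1⟧ : Quotient s) = ⟦a⟧ := (M ⟦a⟧ ⟨a, rfl⟩).2
    have h3 := key ⟦a⟧ rfl _ hb rfl
    have h4 : ∀ (q q' : Quotient s) (hqq : q = q') (b : K) (hb : (⟦b⟧ : Quotient s) = q)
        (hb' : (⟦b⟧ : Quotient s) = q'), (M q ⟨b, hb⟩).1 = (M q' ⟨b, hb'⟩).1 := by
      intro q q' hqq b hb hb'
      subst hqq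
      rfl
    exact (h4 _ _ hb _ rfl hb).trans h3
  · intro a ha
    exact hM2 ⟦a⟧ ⟨a, rfl⟩ (Subtype.ext ha)
  · intro a
    have hb : (⟦(M ⟦a⟧ ⟨a, rfl⟩).1⟧ : Quotient s) = ⟦a⟧ := (M ⟦a⟧ ⟨a, rfl⟩).2
    exact s.symm' (Quotient.exact hb)

/-- The Fink property of a graph: for every perfect matching `M` of the complete graph on its
vertices there is a perfect matching `R` of the graph such that `M ∪ R` is connected. -/
def FinkProp {K : Type*} (Γ : SimpleGraph K) : Prop :=
  ∀ M : K → K, (∀ a, M (M a) = a) → (∀ a, M a ≠ a) →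
    ∃ R : K → K, (∀ a, R (R a) = a) ∧ (∀ a, Γ.Adj a (R a)) ∧
      ∀ p : K → Prop, (∀ a, p a → p (M a)) → (∀ a, p a → p (R a)) → ∀ u v, p u → p v

/-- Substitution lemma. -/
theorem fink_sub {K W : Type*} [Fintype K] {Γ : SimpleGraph K} (hΓ : FinkProp Γ) (s : Setoid W)
    (ι : K → W) (h1 : ∀ w, ∃ a, s.r w (ι a))
    (h2 : ∀ a, Even (Nat.card {b // s.r (ι a) (ι b)})) :
    ∃ R : K → K, (∀ a, R (R a) = a) ∧ (∀ a, Γ.Adj a (R a)) ∧
      ∀ p : W → Prop, (∀ w w', s.r w w' → p w → p w') → (∀ a, p (ι a) → p (ι (R a))) →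
        ∀ u v, p u → p v := by
  obtain ⟨M, hM1, hM2, hM3⟩ := exists_pairing (s.comap ι) h2
  obtain ⟨R, hR1, hR2, hR3⟩ := hΓ M hM1 hM2
  refine ⟨R, hR1, hR2, ?_⟩
  intro p hp1 hp2 u v hu
  obtain ⟨a, ha⟩ := h1 u
  obtain ⟨b, hb⟩ := h1 v
  have hpa : p (ι a) := hp1 _ _ ha hu
  have hpb : p (ι b) := hR3 (fun a => p (ι a)) (fun a h => hp1 _ _ (hM3 a) h) hp2 a b hpa
  exact hp1 _ _ (s.symm' hb) hpb

/-- Adjacency in the cube in terms of `Fin.insertNth`: the inserted coordinate is the same. -/
theorem cube_adj_insertNth {n : ℕ} (i : Fin (n + 1)) (b : Bool) (x y : Fin n → Bool)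
    (h : (cube n).Adj x y) :
    (cube (n + 1)).Adj (i.insertNth b x : Fin (n + 1) → Bool) (i.insertNth b y) := by
  obtain ⟨j, hj, huniq⟩ := h
  refine ⟨i.succAbove j, ?_, ?_⟩
  · simpa using hj
  · intro k hk
    rcases Fin.eq_self_or_eq_succAbove i k with rfl | ⟨l, rfl⟩
    · simp at hk
    · simp only [Fin.insertNth_apply_succAbove] at hk
      rw [huniq l hk]

theorem fink_cube_one : FinkProp (cube 1) := by
  intro M hM1 hM2
  have hadj : ∀ a : Fin 1 → Bool, (cube 1).Adj a (M a) := by
    intro a
    refine ⟨0, ?_, fun j _ => Subsingleton.elim _ _⟩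
    intro h
    apply hM2 a
    funext j
    rw [Subsingleton.elim j 0]
    exact h.symm
  refine ⟨M, hM1, hadj, ?_⟩
  intro p hp1 _ u v hu
  by_cases huv : u = v
  · rwa [← huv]
  · have : v = M u := by
      funext j
      have h1 : u 0 ≠ v 0 := by
        intro h
        apply huv
        funext k
        rw [Subsingleton.elim k 0]
        exact h
      have h2 : u 0 ≠ (M u) 0 := by
        intro h
        apply hM2 u
        funext k
        rw [Subsingleton.elim k 0]
        exact h.symm
      rw [Subsingleton.elim j 0]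
      revert h1 h2
      generalize u 0 = a
      generalize v 0 = b
      generalize M u 0 = c
      revert a b c
      decide
    rw [this]
    exact hp1 u hu

theorem fink_succ {n : ℕ} (hn : 0 < n) (ih : FinkProp (cube n)) : FinkProp (cube (n + 1)) := by
  classical
  intro M hM1 hM2
  -- a coordinate in which some vertex is moved
  let v0 : Fin (n + 1) → Bool := fun _ => false
  have hex : ∃ i, M v0 i ≠ v0 i := by
    by_contra h
    push Not at h
    exact hM2 v0 (funext h)
  obtain ⟨i, hi⟩ := hex
  set b0 : Bool := v0 i with hb0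
  let ins : Bool → (Fin n → Bool) → (Fin (n + 1) → Bool) := fun b u => i.insertNth b u
  let rem : (Fin (n + 1) → Bool) → (Fin n → Bool) := fun w => i.removeNth w
  have hins_i : ∀ b u, ins b u i = b := fun b u => by simp [ins]
  have hrem_ins : ∀ b u, rem (ins b u) = u := fun b u => by simp [ins, rem]
  have hins_rem : ∀ w, ins (w i) (rem w) = w := fun w => by simp [ins, rem]
  have hins_rem' : ∀ w b, w i = b → ins b (rem w) = w := fun w b h => by
    rw [← h]; exact hins_rem w
  have hins_inj : ∀ b u u', ins b u = ins b u' → u = u' := fun b u u' h => by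
    have := congrArg rem h
    rwa [hrem_ins, hrem_ins] at this
  have hbool : ∀ b : Bool, b ≠ b0 → b = !b0 := by
    intro b; cases b <;> cases b0 <;> simp
  have hnb0 : (!b0) ≠ b0 := by cases b0 <;> simp
  -- the crossing vertices on the side of `v0`
  let A : Finset (Fin n → Bool) := Finset.univ.filter (fun u => M (ins b0 u) i ≠ b0)
  have hA : ∀ u, u ∈ A ↔ M (ins b0 u) i ≠ b0 := fun u => by simp [A]
  have hnA : ∀ u, u ∉ A ↔ M (ins b0 u) i = b0 := fun u => by rw [hA]; simp
  let g : (Fin n → Bool) → (Fin n → Bool) := fun u => rem (M (ins b0 u))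
  have hg : ∀ u, u ∉ A → ins b0 (g u) = M (ins b0 u) := fun u hu =>
    hins_rem' _ _ ((hnA u).1 hu)
  have hgA : ∀ u, u ∉ A → g u ∉ A := by
    intro u hu
    rw [hnA, hg u hu, hM1]
    exact hins_i _ _
  have hgg : ∀ u, u ∉ A → g (g u) = u := by
    intro u hu
    apply hins_inj b0
    rw [hg _ (hgA u hu), hg u hu, hM1]
  have hgne : ∀ u, u ∉ A → g u ≠ u := by
    intro u hu h
    apply hM2 (ins b0 u)
    rw [← hg u hu, h]
  have hAeven : Even A.card := by
    have h1 : Even (Aᶜ).card := by
      apply even_card_of_invol (Aᶜ) g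
      · intro v hv; rw [Finset.mem_compl] at hv ⊢; exact hgA v hv
      · intro v hv; rw [Finset.mem_compl] at hv; exact hgg v hv
      · intro v hv; rw [Finset.mem_compl] at hv; exact hgne v hv
    have h2 : A.card + (Aᶜ).card = Fintype.card (Fin n → Bool) := Finset.card_add_card_compl A
    have h3 : Even (Fintype.card (Fin n → Bool)) := by
      rw [Fintype.card_fun, Fintype.card_bool, Fintype.card_fin]
      exact (Nat.even_pow).2 ⟨even_two, hn.ne'⟩
    rw [← h2] at h3
    exact (Nat.even_add.1 h3).2 h1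
  obtain ⟨N, hN1, hN2⟩ : ∃ N : {u // u ∈ A} → {u // u ∈ A}, (∀ v, N (N v) = v) ∧ ∀ v, N v ≠ v := by
    apply exists_invol_of_even
    rwa [Fintype.card_coe]
  let M0 : (Fin n → Bool) → (Fin n → Bool) := fun u => if h : u ∈ A then (N ⟨u, h⟩).1 else g u
  have hM0A : ∀ u (h : u ∈ A), M0 u = (N ⟨u, h⟩).1 := fun u h => by simp only [M0]; rw [dif_pos h]
  have hM0nA : ∀ u, u ∉ A → M0 u = g u := fun u h => by simp only [M0]; rw [dif_neg h]
  have hM0inv : ∀ u, M0 (M0 u) = u := by
    intro u
    by_cases h : u ∈ A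
    · have h' : M0 u ∈ A := by rw [hM0A u h]; exact (N ⟨u, h⟩).2
      rw [hM0A _ h']
      have : (⟨M0 u, h'⟩ : {u // u ∈ A}) = N ⟨u, h⟩ := Subtype.ext (hM0A u h)
      rw [this, hN1]
    · rw [hM0nA u h, hM0nA _ (hgA u h), hgg u h]
  have hM0ne : ∀ u, M0 u ≠ u := by
    intro u
    by_cases h : u ∈ A
    · rw [hM0A u h]
      intro h2
      exact hN2 ⟨u, h⟩ (Subtype.ext h2)
    · rw [hM0nA u h]; exact hgne u h
  obtain ⟨R0, hR01, hR02, hR03⟩ := ih M0 hM0inv hM0ne
  -- the equivalence relation generated by `M` and `R0`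
  let rel : (Fin (n + 1) → Bool) → (Fin (n + 1) → Bool) → Prop :=
    fun w w' => w' = M w ∨ ∃ u, w = ins b0 u ∧ w' = ins b0 (R0 u)
  let s : Setoid (Fin (n + 1) → Bool) := Relation.EqvGen.setoid rel
  have hsM : ∀ w, s.r w (M w) := fun w => Relation.EqvGen.rel _ _ (Or.inl rfl)
  have hsR : ∀ u, s.r (ins b0 u) (ins b0 (R0 u)) := fun u =>
    Relation.EqvGen.rel _ _ (Or.inr ⟨u, rfl, rfl⟩)
  have hsymm : ∀ {w w'}, s.r w w' → s.r w' w := fun h => s.symm' h
  have htrans : ∀ {w w' w''}, s.r w w' → s.r w' w'' → s.r w w'' := fun h h' => s.trans' h h'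
  have hrefl : ∀ w, s.r w w := fun w => s.refl' w
  -- every vertex of the side of `v0` is equivalent to a crossing vertex
  have hcross : ∀ u, ∃ a ∈ A, s.r (ins b0 u) (ins b0 a) := by
    intro u
    have ha0 : rem v0 ∈ A := by
      rw [hA, hins_rem' v0 b0 rfl]
      exact hi
    refine hR03 (fun u => ∃ a ∈ A, s.r (ins b0 u) (ins b0 a)) ?_ ?_ (rem v0) u
      ⟨rem v0, ha0, hrefl _⟩
    · rintro u ⟨a, ha, hua⟩
      by_cases h : u ∈ A
      · refine ⟨M0 u, ?_, hrefl _⟩
        rw [hM0A u h]; exact (N ⟨u, h⟩).2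
      · refine ⟨a, ha, htrans (hsymm ?_) hua⟩
        rw [hM0nA u h, hg u h]
        exact hsM _
    · rintro u ⟨a, ha, hua⟩
      exact ⟨a, ha, htrans (hsymm (hsR u)) hua⟩
  have h1 : ∀ w, ∃ u, s.r w (ins (!b0) u) := by
    intro w
    by_cases hw : w i = b0
    · obtain ⟨a, ha, hua⟩ := hcross (rem w)
      rw [hins_rem' w b0 hw] at hua
      refine ⟨rem (M (ins b0 a)), htrans hua ?_⟩
      have h2 : M (ins b0 a) i = !b0 := hbool _ ((hA a).1 ha)
      rw [hins_rem' _ _ h2]
      exact hsM _
    · refine ⟨rem w, ?_⟩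
      rw [hins_rem' w (!b0) (hbool _ hw)]
  have h2 : ∀ a, Even (Nat.card {b // s.r (ins (!b0) a) (ins (!b0) b)}) := by
    intro a
    let C : Finset (Fin (n + 1) → Bool) := Finset.univ.filter (fun w => s.r (ins (!b0) a) w)
    have hC : ∀ w, w ∈ C ↔ s.r (ins (!b0) a) w := fun w => by simp [C]
    let C0 : Finset (Fin (n + 1) → Bool) := C.filter (fun w => w i = b0)
    have hC0 : ∀ w, w ∈ C0 ↔ w ∈ C ∧ w i = b0 := fun w => by simp [C0]
    let C1 : Finset (Fin (n + 1) → Bool) := C.filter (fun w => ¬ w i = b0)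
    have hC1 : ∀ w, w ∈ C1 ↔ w ∈ C ∧ ¬ w i = b0 := fun w => by simp [C1]
    have hCeven : Even C.card := by
      apply even_card_of_invol C M
      · intro w hw
        rw [hC] at hw ⊢
        exact htrans hw (hsM w)
      · intro w _; exact hM1 w
      · intro w _; exact hM2 w
    have hC0even : Even C0.card := by
      apply even_card_of_invol C0 (fun w => ins b0 (R0 (rem w)))
      · intro w hw
        rw [hC0, hC] at hw ⊢
        refine ⟨htrans hw.1 ?_, hins_i _ _⟩
        have := hsR (rem w)
        rwa [hins_rem' w b0 hw.2] at this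
      · intro w hw
        rw [hC0] at hw
        rw [hrem_ins, hR01, hins_rem' w b0 hw.2]
      · intro w hw h
        rw [hC0] at hw
        have h3 : R0 (rem w) = rem w := by
          have := congrArg rem h
          rwa [hrem_ins] at this
        have h4 := hR02 (rem w)
        rw [h3] at h4
        exact (cube n).loopless.irrefl _ h4
    have hsum : C0.card + C1.card = C.card := Finset.card_filter_add_card_filter_not _
    have hC1even : Even C1.card := by
      rw [← hsum] at hCeven
      exact (Nat.even_add.1 hCeven).1 hC0even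
    have hcard : Nat.card {b // s.r (ins (!b0) a) (ins (!b0) b)} = C1.card := by
      rw [← Nat.card_eq_finsetCard C1]
      apply Nat.card_congr
      refine ⟨fun b => ⟨ins (!b0) b.1, ?_⟩, fun w => ⟨rem w.1, ?_⟩, ?_, ?_⟩
      · rw [hC1, hC]
        refine ⟨b.2, ?_⟩
        rw [hins_i]
        exact hnb0
      · have hw := w.2
        rw [hC1, hC] at hw
        rw [hins_rem' _ _ (hbool _ hw.2)]
        exact hw.1
      · intro b
        apply Subtype.ext
        exact hrem_ins _ _
      · intro w
        apply Subtype.ext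
        have hw := w.2
        rw [hC1, hC] at hw
        exact hins_rem' _ _ (hbool _ hw.2)
    rw [hcard]
    exact hC1even
  obtain ⟨R1, hR11, hR12, hR13⟩ := fink_sub ih s (ins (!b0)) h1 h2
  let R : (Fin (n + 1) → Bool) → (Fin (n + 1) → Bool) := fun w =>
    if w i = b0 then ins b0 (R0 (rem w)) else ins (!b0) (R1 (rem w))
  have hRp : ∀ w, w i = b0 → R w = ins b0 (R0 (rem w)) := fun w h => by
    simp only [R]; rw [if_pos h]
  have hRn : ∀ w, ¬ w i = b0 → R w = ins (!b0) (R1 (rem w)) := fun w h => by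
    simp only [R]; rw [if_neg h]
  refine ⟨R, ?_, ?_, ?_⟩
  · intro w
    by_cases hw : w i = b0
    · rw [hRp w hw, hRp _ (hins_i _ _), hrem_ins, hR01, hins_rem' w b0 hw]
    · rw [hRn w hw, hRn _ (by rw [hins_i]; exact hnb0), hrem_ins, hR11,
        hins_rem' w _ (hbool _ hw)]
  · intro w
    by_cases hw : w i = b0
    · rw [hRp w hw]
      have h3 := cube_adj_insertNth i b0 _ _ (hR02 (rem w))
      have h4 : i.insertNth b0 (rem w) = w := hins_rem' w b0 hw
      rw [h4] at h3
      exact h3
    · rw [hRn w hw]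
      have h3 := cube_adj_insertNth i (!b0) _ _ (hR12 (rem w))
      have h4 : i.insertNth (!b0) (rem w) = w := hins_rem' w _ (hbool _ hw)
      rw [h4] at h3
      exact h3
  · intro p hpM hpR u v hu
    refine hR13 p ?_ ?_ u v hu
    · intro w w' hww' hw
      have : p w ↔ p w' := by
        clear hw
        induction hww' with
        | rel x y h =>
          rcases h with h | ⟨u, hu1, hu2⟩
          · subst h
            constructor
            · exact hpM x
            · intro h
              have := hpM _ h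
              rwa [hM1] at this
          · subst hu1
            subst hu2
            have h3 : R (ins b0 u) = ins b0 (R0 u) := by
              rw [hRp _ (hins_i _ _), hrem_ins]
            have h4 : R (ins b0 (R0 u)) = ins b0 u := by
              rw [hRp _ (hins_i _ _), hrem_ins, hR01]
            constructor
            · intro h
              have := hpR _ h
              rwa [h3] at this
            · intro h
              have := hpR _ h
              rwa [h4] at this
        | refl x => exact Iff.rfl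
        | symm x y _ ih => exact ih.symm
        | trans x y z _ _ ih1 ih2 => exact ih1.trans ih2
      exact this.1 hw
    · intro a ha
      have := hpR _ ha
      rwa [hRn _ (by rw [hins_i]; exact hnb0), hrem_ins] at this

/-- **Fink's theorem.** -/
theorem fink_cube : ∀ n : ℕ, FinkProp (cube n) := by
  intro n
  induction n with
  | zero =>
    intro M hM1 hM2
    exact absurd (Subsingleton.elim _ _) (hM2 (fun _ => false))
  | succ n ih =>
    rcases Nat.eq_zero_or_pos n with hn | hn
    · subst hn
      exact fink_cube_one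
    · exact fink_succ hn ih

end Pool.Agent.Lib.MP_f73734_co
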