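import Mathlib
import Pool.Agent.Lib.MP_f73734_co.Fink

/-!
The closing lemma: a system of disjoint paths covering all vertices, whose ends are exactly the
vertices of a part with the Fink property, can be completed to a connected 2-regular graph.
-/

namespace Pool.Agent.Lib.MP_f73734_co

open Finset

/-- In each component of a graph with degrees `1` on the range of `ι` and `2` elsewhere, the
number of vertices from the range of `ι` is even. -/
theorem even_ends {K W : Type*} [Fintype K] [Fintype W] (H₁ : SimpleGraph W) (ι : K → W)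
    (hι : Function.Injective ι) (hdeg1 : ∀ a, (H₁.neighborSet (ι a)).ncard = 1)
    (hdeg2 : ∀ w, (∀ a, w ≠ ι a) → (H₁.neighborSet w).ncard = 2) (a : K) :
    Even (Nat.card {b // H₁.Reachable (ι a) (ι b)}) := by
  classical
  let H' : SimpleGraph W :=
    { Adj := fun u v => H₁.Adj u v ∧ H₁.Reachable (ι a) u
      symm := ⟨fun u v h => ⟨h.1.symm, h.2.trans h.1.reachable⟩⟩
      loopless := ⟨fun u h => H₁.loopless.irrefl u h.1⟩ }
  have hdeg : ∀ v, H'.degree v = (H'.neighborSet v).ncard := by
    intro v
    rw [← SimpleGraph.card_neighborSet_eq_degree, Set.ncard_eq_toFinset_card', Set.toFinset_card]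
  have hnb : ∀ v, H₁.Reachable (ι a) v → H'.neighborSet v = H₁.neighborSet v := by
    intro v hv
    ext w
    simp only [SimpleGraph.mem_neighborSet]
    exact ⟨fun h => h.1, fun h => ⟨h, hv⟩⟩
  have hnb' : ∀ v, ¬ H₁.Reachable (ι a) v → H'.neighborSet v = ∅ := by
    intro v hv
    ext w
    simp only [SimpleGraph.mem_neighborSet, Set.mem_empty_iff_false, iff_false]
    exact fun h => hv h.2
  have hodd : ∀ v, Odd (H'.degree v) ↔ ∃ b, H₁.Reachable (ι a) (ι b) ∧ ι b = v := by
    intro v
    rw [hdeg]
    by_cases hv : H₁.Reachable (ι a) v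
    · rw [hnb v hv]
      by_cases hb : ∃ b, v = ι b
      · obtain ⟨b, rfl⟩ := hb
        rw [hdeg1]
        exact ⟨fun _ => ⟨b, hv, rfl⟩, fun _ => odd_one⟩
      · push Not at hb
        rw [hdeg2 v hb]
        constructor
        · intro h; exact absurd h (by decide)
        · rintro ⟨b, -, h⟩; exact absurd h.symm (hb b)
    · rw [hnb' v hv]
      constructor
      · intro h; rw [Set.ncard_empty] at h; exact absurd h (by decide)
      · rintro ⟨b, h1, h2⟩; rw [h2] at h1; exact absurd h1 hv
  have h := H'.even_card_odd_degree_vertices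
  have hcard : Nat.card {b // H₁.Reachable (ι a) (ι b)} =
      (Finset.univ.filter (fun v => Odd (H'.degree v))).card := by
    rw [← Nat.card_eq_finsetCard]
    apply Nat.card_congr
    refine Equiv.ofBijective (fun b => ⟨ι b.1, ?_⟩) ⟨?_, ?_⟩
    · rw [Finset.mem_filter]
      exact ⟨Finset.mem_univ _, (hodd _).2 ⟨b.1, b.2, rfl⟩⟩
    · intro b b' hbb
      apply Subtype.ext
      exact hι (congrArg Subtype.val hbb)
    · rintro ⟨v, hv⟩
      rw [Finset.mem_filter] at hv
      obtain ⟨b, hb1, hb2⟩ := (hodd _).1 hv.2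
      exact ⟨⟨b, hb1⟩, Subtype.ext hb2⟩
  rw [hcard]
  exact h

theorem closing {K W : Type*} [Fintype K] [Fintype W] {Γ : SimpleGraph K} (hΓ : FinkProp Γ)
    (G H₁ : SimpleGraph W) (ι : K → W) (hι : Function.Injective ι)
    (hadj : ∀ a b, Γ.Adj a b → G.Adj (ι a) (ι b)) (hle : H₁ ≤ G)
    (hdeg1 : ∀ a, (H₁.neighborSet (ι a)).ncard = 1)
    (hdeg2 : ∀ w, (∀ a, w ≠ ι a) → (H₁.neighborSet w).ncard = 2)
    (hreach : ∀ w, ∃ a, H₁.Reachable w (ι a)) (hcard : 3 ≤ Fintype.card W) :
    ∃ H : SimpleGraph W, H₁ ≤ H ∧ H ≤ G ∧ H.Connected ∧ (∀ w, (H.neighborSet w).ncard = 2) ∧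
      ∀ u v, H.Adj u v → H₁.Adj u v ∨ ((∃ a, u = ι a) ∧ ∃ b, v = ι b) := by
  classical
  obtain ⟨R, hR1, hR2, hR3⟩ := fink_sub hΓ H₁.reachableSetoid ι hreach
    (fun a => even_ends H₁ ι hι hdeg1 hdeg2 a)
  have hRne : ∀ a, ι a ≠ ι (R a) := fun a h => Γ.loopless.irrefl a (by
    have := hR2 a
    rwa [← hι h] at this)
  let H : SimpleGraph W :=
    { Adj := fun u v => H₁.Adj u v ∨ ∃ a, u = ι a ∧ v = ι (R a)
      symm := ⟨by
        rintro u v (h | ⟨a, h1, h2⟩)
        · exact Or.inl h.symm
        · refine Or.inr ⟨R a, h2, ?_⟩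
          rw [hR1]; exact h1⟩
      loopless := ⟨by
        rintro u (h | ⟨a, h1, h2⟩)
        · exact H₁.loopless.irrefl u h
        · exact hRne a (h1.symm.trans h2)⟩ }
  have hle1 : H₁ ≤ H := fun u v h => Or.inl h
  have hconn : ∀ u v, H.Reachable u v := by
    intro u v
    refine hR3 (fun w => H.Reachable u w) ?_ ?_ u v (SimpleGraph.Reachable.refl u)
    · intro w w' hww' hw
      exact hw.trans (SimpleGraph.Reachable.mono hle1 hww')
    · intro a ha
      have : H.Adj (ι a) (ι (R a)) := Or.inr ⟨a, rfl, rfl⟩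
      exact ha.trans this.reachable
  have hpos : Nonempty W := by
    rw [← Fintype.card_pos_iff]; omega
  refine ⟨H, hle1, ?_, ⟨hconn⟩, ?_, ?_⟩
  · rintro u v (h | ⟨a, rfl, rfl⟩)
    · exact hle h
    · exact hadj _ _ (hR2 a)
  · intro w
    by_cases hw : ∃ a, w = ι a
    · obtain ⟨a, rfl⟩ := hw
      obtain ⟨x, hx⟩ := Set.ncard_eq_one.1 (hdeg1 a)
      have hx' : ∀ y, H₁.Adj (ι a) y ↔ y = x := by
        intro y
        have : y ∈ H₁.neighborSet (ι a) ↔ y ∈ ({x} : Set W) := by rw [hx]
        simpa using this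
      have hnbr : H.neighborSet (ι a) = {x, ι (R a)} := by
        ext y
        simp only [SimpleGraph.mem_neighborSet, Set.mem_insert_iff, Set.mem_singleton_iff]
        constructor
        · rintro (h | ⟨b, h1, h2⟩)
          · exact Or.inl ((hx' y).1 h)
          · rw [← hι h1] at h2; exact Or.inr h2
        · rintro (h | h)
          · exact Or.inl ((hx' y).2 h)
          · exact Or.inr ⟨a, rfl, h⟩
      rw [hnbr, Set.ncard_pair]
      -- `x = ι (R a)` would make `{ι a, x}` a component
      intro hxa
      obtain ⟨z, hz⟩ := Set.ncard_eq_one.1 (hdeg1 (R a))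
      have hz' : ∀ y, H₁.Adj (ι (R a)) y ↔ y = z := by
        intro y
        have : y ∈ H₁.neighborSet (ι (R a)) ↔ y ∈ ({z} : Set W) := by rw [hz]
        simpa using this
      have hza : z = ι a := by
        symm
        rw [← hz', ← hxa]
        exact ((hx' x).2 rfl).symm
      have hall : ∀ v, v = ι a ∨ v = ι (R a) := by
        intro v
        refine hR3 (fun w => w = ι a ∨ w = ι (R a)) ?_ ?_ (ι a) v (Or.inl rfl)
        · intro w w' hww' hw
          obtain ⟨p⟩ := hww'
          induction p with
          | nil => exact hw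
          | cons hadj' _ ih =>
            apply ih
            rcases hw with rfl | rfl
            · right
              rw [← hxa]
              exact (hx' _).1 hadj'
            · left
              rw [← hza]
              exact (hz' _).1 hadj'
        · rintro b (hb | hb)
          · rw [hι hb]; exact Or.inr rfl
          · rw [hι hb, hR1]; exact Or.inl rfl
      have hcard2 : Fintype.card W ≤ 2 := by
        have : (Finset.univ : Finset W) ⊆ {ι a, ι (R a)} := by
          intro v _
          simpa using hall v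
        calc Fintype.card W = (Finset.univ : Finset W).card := rfl
          _ ≤ ({ι a, ι (R a)} : Finset W).card := Finset.card_le_card this
          _ ≤ 2 := Finset.card_le_two
      omega
    · push Not at hw
      have hnbr : H.neighborSet w = H₁.neighborSet w := by
        ext y
        simp only [SimpleGraph.mem_neighborSet]
        constructor
        · rintro (h | ⟨b, h1, h2⟩)
          · exact h
          · exact absurd h1 (hw b)
        · exact fun h => Or.inl h
      rw [hnbr]
      exact hdeg2 w hw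
  · rintro u v (h | ⟨a, rfl, rfl⟩)
    · exact Or.inl h
    · exact Or.inr ⟨⟨a, rfl⟩, ⟨R a, rfl⟩⟩

end Pool.Agent.Lib.MP_f73734_co
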