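import Mathlib
import Pool.Agent.Lib.MP_f73734_co.Closing

/-!
Connected 2-regular graphs are Hamiltonian circuits; lower bounds for the number of Hamiltonian
circuits.
-/

namespace Pool.Agent.Lib.MP_f73734_co

open Finset

/-- A connected 2-regular spanning subgraph is a Hamiltonian circuit. -/
theorem exists_hamCycle {V : Type*} [Fintype V] [DecidableEq V] (G H : SimpleGraph V) (hle : H ≤ G)
    (hconn : H.Connected) (hdeg : ∀ w, (H.neighborSet w).ncard = 2) :
    ∃ (v : V) (p : G.Walk v v), p.IsHamiltonianCycle ∧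
      ∀ a b, p.toSubgraph.Adj a b ↔ H.Adj a b := by
  classical
  obtain ⟨v⟩ := hconn.nonempty
  have hcyc : H.IsCycles := fun w _ => hdeg w
  have hne : (H.neighborSet v).Nonempty := by
    rw [← Set.ncard_pos (Set.toFinite _), hdeg]; norm_num
  obtain ⟨p, hp1, hp2⟩ := hcyc.exists_cycle_toSubgraph_verts_eq_connectedComponentSupp
    (c := H.connectedComponentMk v) rfl hne
  have hall : ∀ w, w ∈ p.toSubgraph.verts := by
    intro w
    rw [hp2]
    rw [SimpleGraph.ConnectedComponent.mem_supp_iff, SimpleGraph.ConnectedComponent.eq]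
    exact hconn.preconnected w v
  have hadj : ∀ a b, p.toSubgraph.Adj a b ↔ H.Adj a b := fun a b =>
    hp1.adj_toSubgraph_iff_of_isCycles hcyc (hall a) b
  refine ⟨v, p.mapLe hle, ?_, ?_⟩
  · rw [SimpleGraph.Walk.isHamiltonianCycle_iff_isCycle_and_support_count_tail_eq_one]
    have hc : (p.mapLe hle).IsCycle := hp1.mapLe hle
    refine ⟨hc, ?_⟩
    intro a
    have hsupp : (p.mapLe hle).support = p.support := by simp
    rw [hsupp]
    apply List.count_eq_one_of_mem hp1.support_nodup
    have ha : a ∈ p.support := by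
      have := hall a
      rwa [SimpleGraph.Walk.mem_verts_toSubgraph] at this
    rw [← SimpleGraph.Walk.cons_tail_support] at ha
    rcases List.mem_cons.1 ha with h | h
    · rw [h]
      exact SimpleGraph.Walk.end_mem_tail_support hp1.not_nil
    · exact h
  · intro a b
    rw [← hadj]
    simp

/-- A family of distinct connected 2-regular spanning subgraphs bounds the number of Hamiltonian
circuits from below. -/
theorem le_hamCount {V α : Type*} [Fintype V] [DecidableEq V] (G : SimpleGraph V)
    (F : α → SimpleGraph V) (hle : ∀ a, F a ≤ G) (hconn : ∀ a, (F a).Connected)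
    (hdeg : ∀ a w, ((F a).neighborSet w).ncard = 2) (hinj : Function.Injective F) :
    Nat.card α ≤ hamCount G := by
  have hex : ∀ a, ∃ H : G.Subgraph, (∃ (v : V) (p : G.Walk v v), p.IsHamiltonianCycle ∧
      p.toSubgraph = H) ∧ ∀ x y, H.Adj x y ↔ (F a).Adj x y := by
    intro a
    obtain ⟨v, p, hp1, hp2⟩ := exists_hamCycle G (F a) (hle a) (hconn a) (hdeg a)
    exact ⟨p.toSubgraph, ⟨v, p, hp1, rfl⟩, hp2⟩
  choose S hS1 hS2 using hex
  unfold hamCount
  rw [← Nat.card_coe_set_eq]
  apply Nat.card_le_card_of_injective (fun a => (⟨S a, hS1 a⟩ : {H : G.Subgraph | ∃ (v : V)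
    (p : G.Walk v v), p.IsHamiltonianCycle ∧ p.toSubgraph = H}))
  intro a b hab
  have h : S a = S b := congrArg Subtype.val hab
  apply hinj
  ext x y
  rw [← hS2, ← hS2, h]

/-- The number of Hamiltonian circuits does not decrease along a bijective homomorphism. -/
theorem hamCount_le_of_hom {V V' : Type*} [Fintype V'] [DecidableEq V] [DecidableEq V']
    (G : SimpleGraph V) (G' : SimpleGraph V') (f : G →g G') (hf : Function.Bijective f) :
    hamCount G ≤ hamCount G' := by
  unfold hamCount
  apply Set.ncard_le_ncard_of_injOn (fun H => H.map f)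
  · rintro H ⟨v, p, hp, rfl⟩
    refine ⟨f v, p.map f, hp.map hf, ?_⟩
    rw [SimpleGraph.Walk.toSubgraph_map]
  · intro H₁ _ H₂ _ h
    have hv : H₁.verts = H₂.verts := by
      have := congrArg SimpleGraph.Subgraph.verts h
      exact hf.1.image_injective this
    refine SimpleGraph.Subgraph.ext hv ?_
    funext a b
    have h2 := congrArg (fun K : G'.Subgraph => K.Adj (f a) (f b)) h
    simp only [SimpleGraph.Subgraph.map_adj, Relation.map_apply] at h2
    rw [eq_iff_iff] at h2 ⊢
    constructor
    · intro hab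
      obtain ⟨x, y, hxy, hx, hy⟩ := h2.1 ⟨a, b, hab, rfl, rfl⟩
      rwa [hf.1 hx, hf.1 hy] at hxy
    · intro hab
      obtain ⟨x, y, hxy, hx, hy⟩ := h2.2 ⟨a, b, hab, rfl, rfl⟩
      rwa [hf.1 hx, hf.1 hy] at hxy

end Pool.Agent.Lib.MP_f73734_co
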