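import Mathlib
import Pool.Agent.Lib.MP_f73734_co.Ham

/-!
Many systems of paths in the cube of dimension `m` with prescribed ends give many Hamiltonian
circuits in the cube of dimension `m + s`.
-/

namespace Pool.Agent.Lib.MP_f73734_co

open Finset

/-- Systems of disjoint paths in the cube, covering all vertices, with sets of ends `T`, `B`
(a vertex in both sets is a path of length zero), such that each path has an end in `T` and an end
in `B`. -/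
def chainSet (m : ℕ) (T B : Set (Fin m → Bool)) : Set (SimpleGraph (Fin m → Bool)) :=
  {C | C ≤ cube m ∧ (∀ x ∉ T, x ∉ B → (C.neighborSet x).ncard = 2) ∧
    (∀ x ∈ T, x ∉ B → (C.neighborSet x).ncard = 1) ∧
    (∀ x ∉ T, x ∈ B → (C.neighborSet x).ncard = 1) ∧
    (∀ x ∈ T, x ∈ B → (C.neighborSet x).ncard = 0) ∧
    (∀ x, ∃ t ∈ T, C.Reachable x t) ∧ (∀ x, ∃ b ∈ B, C.Reachable x b)}

/-- Flipping one coordinate. -/
def flip {s : ℕ} (i : Fin s) (ℓ : Fin s → Bool) : Fin s → Bool := Function.update ℓ i (!ℓ i)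

theorem flip_flip {s : ℕ} (i : Fin s) (ℓ : Fin s → Bool) : flip i (flip i ℓ) = ℓ := by
  simp [flip]

theorem flip_adj {s : ℕ} (i : Fin s) (ℓ : Fin s → Bool) : (cube s).Adj ℓ (flip i ℓ) := by
  refine ⟨i, by simp [flip], ?_⟩
  intro j hj
  by_contra h
  apply hj
  simp [flip, h]

theorem flip_ne {s : ℕ} (i : Fin s) (ℓ : Fin s → Bool) : flip i ℓ ≠ ℓ := fun h =>
  (cube s).loopless.irrefl ℓ (by
    have := flip_adj i ℓ
    rwa [h] at this)

section Layers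

variable {m s : ℕ} (T B : Set (Fin m → Bool)) (τ σ : (Fin s → Bool) → (Fin s → Bool))
  (ℓ₀ : Fin s → Bool) (C : (Fin s → Bool) → SimpleGraph (Fin m → Bool))

/-- The adjacency relation of the path system in the product. -/
def layerAdj (p q : (Fin m → Bool) × (Fin s → Bool)) : Prop :=
  (p.2 = q.2 ∧ ¬ (p.2 = ℓ₀ ∨ p.2 = τ ℓ₀) ∧ (C p.2).Adj p.1 q.1) ∨
  (p.1 = q.1 ∧ q.2 = τ p.2 ∧ (((p.2 = ℓ₀ ∨ p.2 = τ ℓ₀) ∧ p.1 ∉ B) ∨
    (¬ (p.2 = ℓ₀ ∨ p.2 = τ ℓ₀) ∧ p.1 ∈ T))) ∨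
  (p.1 = q.1 ∧ q.2 = σ p.2 ∧ p.1 ∈ B)

theorem layerAdj_symm (hτ : ∀ ℓ, τ (τ ℓ) = ℓ) (hσ : ∀ ℓ, σ (σ ℓ) = ℓ)
    (p q : (Fin m → Bool) × (Fin s → Bool)) (h : layerAdj T B τ σ ℓ₀ C p q) :
    layerAdj T B τ σ ℓ₀ C q p := by
  obtain ⟨x, ℓ⟩ := p
  obtain ⟨y, ℓ'⟩ := q
  rcases h with ⟨h1, h2, h3⟩ | ⟨h1, h2, h3⟩ | ⟨h1, h2, h3⟩
  · left
    simp only at h1 h2 h3 ⊢
    subst h1
    exact ⟨rfl, h2, h3.symm⟩
  · right; left
    simp only at h1 h2 h3 ⊢
    subst h1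
    subst h2
    refine ⟨rfl, (hτ _).symm, ?_⟩
    have hiff : (τ ℓ = ℓ₀ ∨ τ ℓ = τ ℓ₀) ↔ (ℓ = ℓ₀ ∨ ℓ = τ ℓ₀) := by
      constructor
      · rintro (h | h)
        · right; rw [← h, hτ]
        · left
          have := congrArg τ h
          rwa [hτ, hτ] at this
      · rintro (h | h)
        · right; rw [h]
        · left; rw [h, hτ]
    rw [hiff]
    exact h3
  · right; right
    simp only at h1 h2 h3 ⊢
    subst h1
    subst h2
    exact ⟨rfl, (hσ _).symm, h3⟩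

end Layers

theorem tau_ne_sigma {s : ℕ} (hs : 2 ≤ s) (τ σ : (Fin s → Bool) → (Fin s → Bool))
    (hτ : ∀ ℓ, τ (τ ℓ) = ℓ) (hσ : ∀ ℓ, σ (σ ℓ) = ℓ)
    (htrans : ∀ p : (Fin s → Bool) → Prop, (∀ a, p a → p (τ a)) → (∀ a, p a → p (σ a)) →
      ∀ u v, p u → p v) (ℓ : Fin s → Bool) : τ ℓ ≠ σ ℓ := by
  classical
  intro h
  have hall : ∀ v, v = ℓ ∨ v = τ ℓ := by
    intro v
    refine htrans (fun v => v = ℓ ∨ v = τ ℓ) ?_ ?_ ℓ v (Or.inl rfl)
    · rintro a (rfl | rfl)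
      · right; rfl
      · left; exact hτ _
    · rintro a (rfl | rfl)
      · right; exact h.symm
      · left; rw [h]; exact hσ _
  have hcard : Fintype.card (Fin s → Bool) ≤ 2 := by
    have : (Finset.univ : Finset (Fin s → Bool)) ⊆ {ℓ, τ ℓ} := by
      intro v _
      simpa using hall v
    calc Fintype.card (Fin s → Bool) = (Finset.univ : Finset (Fin s → Bool)).card := rfl
      _ ≤ ({ℓ, τ ℓ} : Finset (Fin s → Bool)).card := Finset.card_le_card this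
      _ ≤ 2 := Finset.card_le_two
  rw [Fintype.card_fun, Fintype.card_bool, Fintype.card_fin] at hcard
  have : 2 ^ 2 ≤ 2 ^ s := Nat.pow_le_pow_right (by norm_num) hs
  omega

open SimpleGraph in
theorem exists_ham_of_family {m s : ℕ} (hs : 2 ≤ s) (T B : Set (Fin m → Bool))
    (τ σ : (Fin s → Bool) → (Fin s → Bool))
    (hτ : ∀ ℓ, τ (τ ℓ) = ℓ) (hτadj : ∀ ℓ, (cube s).Adj ℓ (τ ℓ))
    (hσ : ∀ ℓ, σ (σ ℓ) = ℓ) (hσadj : ∀ ℓ, (cube s).Adj ℓ (σ ℓ))
    (htrans : ∀ p : (Fin s → Bool) → Prop, (∀ a, p a → p (τ a)) → (∀ a, p a → p (σ a)) →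
      ∀ u v, p u → p v)
    (ℓ₀ : Fin s → Bool) (C : (Fin s → Bool) → SimpleGraph (Fin m → Bool))
    (hC : ∀ ℓ, ¬ (ℓ = ℓ₀ ∨ ℓ = τ ℓ₀) → C ℓ ∈ chainSet m T B) :
    ∃ H : SimpleGraph ((Fin m → Bool) × (Fin s → Bool)),
      H ≤ (cube m).boxProd (cube s) ∧ H.Connected ∧ (∀ w, (H.neighborSet w).ncard = 2) ∧
      ∀ ℓ, ¬ (ℓ = ℓ₀ ∨ ℓ = τ ℓ₀) → ∀ x y, H.Adj (x, ℓ) (y, ℓ) ↔ (C ℓ).Adj x y := by
  classical
  have hτne : ∀ ℓ, τ ℓ ≠ ℓ := fun ℓ h => (cube s).loopless.irrefl ℓ (by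
    have := hτadj ℓ
    rwa [h] at this)
  have hσne : ∀ ℓ, σ ℓ ≠ ℓ := fun ℓ h => (cube s).loopless.irrefl ℓ (by
    have := hσadj ℓ
    rwa [h] at this)
  have hτσ : ∀ ℓ, τ ℓ ≠ σ ℓ := tau_ne_sigma hs τ σ hτ hσ htrans
  let H₁ : SimpleGraph ((Fin m → Bool) × (Fin s → Bool)) :=
    { Adj := layerAdj T B τ σ ℓ₀ C
      symm := ⟨fun p q h => layerAdj_symm T B τ σ ℓ₀ C hτ hσ p q h⟩
      loopless := ⟨by
        rintro ⟨x, ℓ⟩ (⟨_, _, h⟩ | ⟨_, h, _⟩ | ⟨_, h, _⟩)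
        · exact (C ℓ).loopless.irrefl x h
        · exact hτne ℓ h.symm
        · exact hσne ℓ h.symm⟩ }
  have hH₁ : ∀ p q, H₁.Adj p q ↔ layerAdj T B τ σ ℓ₀ C p q := fun p q => Iff.rfl
  have hle : H₁ ≤ (cube m).boxProd (cube s) := by
    rintro ⟨x, ℓ⟩ ⟨y, ℓ'⟩ h
    rw [boxProd_adj]
    rcases h with ⟨h1, h2, h3⟩ | ⟨h1, h2, h3⟩ | ⟨h1, h2, h3⟩
    · left
      exact ⟨(hC _ h2).1 h3, h1⟩
    · right
      simp only at h1 h2 ⊢
      rw [h2]
      exact ⟨hτadj _, h1⟩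
    · right
      simp only at h1 h2 ⊢
      rw [h2]
      exact ⟨hσadj _, h1⟩
  let ι : (Fin (m + 1) → Bool) → (Fin m → Bool) × (Fin s → Bool) := fun y =>
    (fun i => y i.succ, if y 0 = true then τ ℓ₀ else ℓ₀)
  have hι : Function.Injective ι := by
    intro y z h
    have h1 : (fun i : Fin m => y i.succ) = fun i => z i.succ := congrArg Prod.fst h
    have h2 : (if y 0 = true then τ ℓ₀ else ℓ₀) = if z 0 = true then τ ℓ₀ else ℓ₀ :=
      congrArg Prod.snd h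
    funext i
    refine Fin.cases ?_ (fun j => congrFun h1 j) i
    have h3 := hτne ℓ₀
    revert h2
    cases y 0 <;> cases z 0 <;> simp [h3, h3.symm]
  have hadj : ∀ a b, (cube (m + 1)).Adj a b → ((cube m).boxProd (cube s)).Adj (ι a) (ι b) := by
    rintro a b ⟨i, hi, huniq⟩
    rw [boxProd_adj]
    revert hi huniq
    refine Fin.cases ?_ ?_ i
    · intro hi huniq
      right
      have h1 : (fun i : Fin m => a i.succ) = fun i => b i.succ := by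
        funext j
        by_contra h
        have := huniq j.succ h
        exact absurd this (Fin.succ_ne_zero j)
      refine ⟨?_, h1⟩
      simp only [ι]
      revert hi
      cases a 0 <;> cases b 0 <;> simp
      · exact hτadj ℓ₀
      · have := hτadj ℓ₀
        exact this.symm
    · intro j hi huniq
      left
      have h0 : a 0 = b 0 := by
        by_contra h
        have := huniq 0 h
        exact absurd this.symm (Fin.succ_ne_zero j)
      refine ⟨⟨j, hi, ?_⟩, ?_⟩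
      · intro k hk
        have := huniq k.succ hk
        exact Fin.succ_injective _ this
      · simp only [ι]; rw [h0]
  have hrange : ∀ x ℓ, (ℓ = ℓ₀ ∨ ℓ = τ ℓ₀) → ∃ a, (x, ℓ) = ι a := by
    rintro x ℓ (rfl | rfl)
    · exact ⟨Fin.cons false x, by simp [ι]⟩
    · exact ⟨Fin.cons true x, by simp [ι]⟩
  have hrange' : ∀ a, (ι a).2 = ℓ₀ ∨ (ι a).2 = τ ℓ₀ := by
    intro a
    simp only [ι]
    by_cases h : a 0 = true
    · right; rw [if_pos h]
    · left; rw [if_neg h]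
  have hdeg1' : ∀ x ℓ, (ℓ = ℓ₀ ∨ ℓ = τ ℓ₀) → (H₁.neighborSet (x, ℓ)).ncard = 1 := by
    intro x ℓ hℓ
    by_cases hx : x ∈ B
    · have : H₁.neighborSet (x, ℓ) = {(x, σ ℓ)} := by
        ext ⟨y, ℓ'⟩
        rw [mem_neighborSet, hH₁, Set.mem_singleton_iff, Prod.mk.injEq]
        constructor
        · rintro (⟨_, h2, _⟩ | ⟨_, _, h3⟩ | ⟨h1, h2, _⟩)
          · exact absurd hℓ h2
          · rcases h3 with h3 | h3
            · exact absurd hx h3.2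
            · exact absurd hℓ h3.1
          · exact ⟨h1.symm, h2⟩
        · rintro ⟨rfl, rfl⟩
          exact Or.inr (Or.inr ⟨rfl, rfl, hx⟩)
      rw [this, Set.ncard_singleton]
    · have : H₁.neighborSet (x, ℓ) = {(x, τ ℓ)} := by
        ext ⟨y, ℓ'⟩
        rw [mem_neighborSet, hH₁, Set.mem_singleton_iff, Prod.mk.injEq]
        constructor
        · rintro (⟨_, h2, _⟩ | ⟨h1, h2, _⟩ | ⟨_, _, h3⟩)
          · exact absurd hℓ h2
          · exact ⟨h1.symm, h2⟩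
          · exact absurd h3 hx
        · rintro ⟨rfl, rfl⟩
          exact Or.inr (Or.inl ⟨rfl, rfl, Or.inl ⟨hℓ, hx⟩⟩)
      rw [this, Set.ncard_singleton]
  have hdeg1 : ∀ a, (H₁.neighborSet (ι a)).ncard = 1 := by
    intro a
    exact hdeg1' (ι a).1 (ι a).2 (hrange' a)
  have hdeg2 : ∀ w, (∀ a, w ≠ ι a) → (H₁.neighborSet w).ncard = 2 := by
    rintro ⟨x, ℓ⟩ hw
    have hℓ : ¬ (ℓ = ℓ₀ ∨ ℓ = τ ℓ₀) := by
      intro h
      obtain ⟨a, ha⟩ := hrange x ℓ h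
      exact hw a ha
    obtain ⟨_, hC1, hC2, hC3, hC4, _, _⟩ := hC ℓ hℓ
    have hmem : ∀ y ℓ', (y, ℓ') ∈ H₁.neighborSet (x, ℓ) ↔
        (ℓ = ℓ' ∧ (C ℓ).Adj x y) ∨ (x = y ∧ ℓ' = τ ℓ ∧ x ∈ T) ∨ (x = y ∧ ℓ' = σ ℓ ∧ x ∈ B) := by
      intro y ℓ'
      rw [mem_neighborSet, hH₁]
      constructor
      · rintro (⟨h1, h2, h3⟩ | ⟨h1, h2, h3⟩ | h)
        · exact Or.inl ⟨h1, h3⟩
        · rcases h3 with h3 | h3
          · exact absurd h3.1 hℓ
          · exact Or.inr (Or.inl ⟨h1, h2, h3.2⟩)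
        · exact Or.inr (Or.inr h)
      · rintro (⟨h1, h3⟩ | ⟨h1, h2, h3⟩ | h)
        · exact Or.inl ⟨h1, hℓ, h3⟩
        · exact Or.inr (Or.inl ⟨h1, h2, Or.inr ⟨hℓ, h3⟩⟩)
        · exact Or.inr (Or.inr h)
    by_cases hxT : x ∈ T
    · by_cases hxB : x ∈ B
      · have h0 := hC4 x hxT hxB
        rw [Set.ncard_eq_zero (Set.toFinite _)] at h0
        have : H₁.neighborSet (x, ℓ) = {(x, τ ℓ), (x, σ ℓ)} := by
          ext ⟨y, ℓ'⟩
          rw [hmem, Set.mem_insert_iff, Set.mem_singleton_iff, Prod.mk.injEq, Prod.mk.injEq]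
          constructor
          · rintro (⟨_, h3⟩ | ⟨h1, h2, _⟩ | ⟨h1, h2, _⟩)
            · have : y ∈ (C ℓ).neighborSet x := h3
              rw [h0] at this
              exact absurd this (Set.notMem_empty _)
            · exact Or.inl ⟨h1.symm, h2⟩
            · exact Or.inr ⟨h1.symm, h2⟩
          · rintro (⟨h1, h2⟩ | ⟨h1, h2⟩)
            · exact Or.inr (Or.inl ⟨h1.symm, h2, hxT⟩)
            · exact Or.inr (Or.inr ⟨h1.symm, h2, hxB⟩)
        rw [this, Set.ncard_pair]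
        intro h
        exact hτσ ℓ (congrArg Prod.snd h)
      · obtain ⟨z, hz⟩ := Set.ncard_eq_one.1 (hC2 x hxT hxB)
        have hz' : ∀ y, (C ℓ).Adj x y ↔ y = z := by
          intro y
          have : y ∈ (C ℓ).neighborSet x ↔ y ∈ ({z} : Set (Fin m → Bool)) := by rw [hz]
          simpa using this
        have : H₁.neighborSet (x, ℓ) = {(z, ℓ), (x, τ ℓ)} := by
          ext ⟨y, ℓ'⟩
          rw [hmem, Set.mem_insert_iff, Set.mem_singleton_iff, Prod.mk.injEq, Prod.mk.injEq]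
          constructor
          · rintro (⟨h1, h3⟩ | ⟨h1, h2, _⟩ | ⟨h1, h2, h3⟩)
            · exact Or.inl ⟨(hz' y).1 h3, h1.symm⟩
            · exact Or.inr ⟨h1.symm, h2⟩
            · exact absurd h3 hxB
          · rintro (⟨h1, h2⟩ | ⟨h1, h2⟩)
            · exact Or.inl ⟨h2.symm, (hz' y).2 h1⟩
            · exact Or.inr (Or.inl ⟨h1.symm, h2, hxT⟩)
        rw [this, Set.ncard_pair]
        intro h
        exact hτne ℓ (congrArg Prod.snd h).symm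
    · by_cases hxB : x ∈ B
      · obtain ⟨z, hz⟩ := Set.ncard_eq_one.1 (hC3 x hxT hxB)
        have hz' : ∀ y, (C ℓ).Adj x y ↔ y = z := by
          intro y
          have : y ∈ (C ℓ).neighborSet x ↔ y ∈ ({z} : Set (Fin m → Bool)) := by rw [hz]
          simpa using this
        have : H₁.neighborSet (x, ℓ) = {(z, ℓ), (x, σ ℓ)} := by
          ext ⟨y, ℓ'⟩
          rw [hmem, Set.mem_insert_iff, Set.mem_singleton_iff, Prod.mk.injEq, Prod.mk.injEq]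
          constructor
          · rintro (⟨h1, h3⟩ | ⟨h1, h2, h3⟩ | ⟨h1, h2, _⟩)
            · exact Or.inl ⟨(hz' y).1 h3, h1.symm⟩
            · exact absurd h3 hxT
            · exact Or.inr ⟨h1.symm, h2⟩
          · rintro (⟨h1, h2⟩ | ⟨h1, h2⟩)
            · exact Or.inl ⟨h2.symm, (hz' y).2 h1⟩
            · exact Or.inr (Or.inr ⟨h1.symm, h2, hxB⟩)
        rw [this, Set.ncard_pair]
        intro h
        exact hσne ℓ (congrArg Prod.snd h).symm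
      · obtain ⟨z, z', hzz, hz⟩ := Set.ncard_eq_two.1 (hC1 x hxT hxB)
        have hz' : ∀ y, (C ℓ).Adj x y ↔ y = z ∨ y = z' := by
          intro y
          have : y ∈ (C ℓ).neighborSet x ↔ y ∈ ({z, z'} : Set (Fin m → Bool)) := by rw [hz]
          simpa using this
        have : H₁.neighborSet (x, ℓ) = {(z, ℓ), (z', ℓ)} := by
          ext ⟨y, ℓ'⟩
          rw [hmem, Set.mem_insert_iff, Set.mem_singleton_iff, Prod.mk.injEq, Prod.mk.injEq]
          constructor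
          · rintro (⟨h1, h3⟩ | ⟨h1, h2, h3⟩ | ⟨h1, h2, h3⟩)
            · rcases (hz' y).1 h3 with h | h
              · exact Or.inl ⟨h, h1.symm⟩
              · exact Or.inr ⟨h, h1.symm⟩
            · exact absurd h3 hxT
            · exact absurd h3 hxB
          · rintro (⟨h1, h2⟩ | ⟨h1, h2⟩)
            · exact Or.inl ⟨h2.symm, (hz' y).2 (Or.inl h1)⟩
            · exact Or.inl ⟨h2.symm, (hz' y).2 (Or.inr h1)⟩
        rw [this, Set.ncard_pair]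
        intro h
        exact hzz (congrArg Prod.fst h)
  have hlayer : ∀ ℓ, ¬ (ℓ = ℓ₀ ∨ ℓ = τ ℓ₀) → ∀ x y, (C ℓ).Reachable x y →
      H₁.Reachable (x, ℓ) (y, ℓ) := by
    intro ℓ hℓ x y ⟨p⟩
    induction p with
    | nil => exact Reachable.refl _
    | cons h _ ih =>
      refine Reachable.trans (Adj.reachable ?_) ih
      exact Or.inl ⟨rfl, hℓ, h⟩
  have hreach' : ∀ ℓ, ∀ x, ∃ a, H₁.Reachable (x, ℓ) (ι a) := by
    intro ℓ
    refine htrans (fun ℓ => ∀ x, ∃ a, H₁.Reachable (x, ℓ) (ι a)) ?_ ?_ ℓ₀ ℓ ?_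
    · intro ℓ ih x
      by_cases hℓ : τ ℓ = ℓ₀ ∨ τ ℓ = τ ℓ₀
      · obtain ⟨a, ha⟩ := hrange x _ hℓ
        exact ⟨a, by rw [← ha]⟩
      · obtain ⟨_, _, _, _, _, hT, _⟩ := hC _ hℓ
        obtain ⟨t, ht, hxt⟩ := hT x
        obtain ⟨a, ha⟩ := ih t
        refine ⟨a, ((hlayer _ hℓ _ _ hxt).trans (Adj.reachable ?_)).trans ha⟩
        exact Or.inr (Or.inl ⟨rfl, (hτ ℓ).symm, Or.inr ⟨hℓ, ht⟩⟩)
    · intro ℓ ih x
      by_cases hℓ : σ ℓ = ℓ₀ ∨ σ ℓ = τ ℓ₀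
      · obtain ⟨a, ha⟩ := hrange x _ hℓ
        exact ⟨a, by rw [← ha]⟩
      · obtain ⟨_, _, _, _, _, _, hB⟩ := hC _ hℓ
        obtain ⟨b, hb, hxb⟩ := hB x
        obtain ⟨a, ha⟩ := ih b
        refine ⟨a, ((hlayer _ hℓ _ _ hxb).trans (Adj.reachable ?_)).trans ha⟩
        exact Or.inr (Or.inr ⟨rfl, (hσ ℓ).symm, hb⟩)
    · intro x
      obtain ⟨a, ha⟩ := hrange x ℓ₀ (Or.inl rfl)
      exact ⟨a, by rw [← ha]⟩
  have hreach : ∀ w, ∃ a, H₁.Reachable w (ι a) := fun w => hreach' w.2 w.1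
  have hcard : 3 ≤ Fintype.card ((Fin m → Bool) × (Fin s → Bool)) := by
    rw [Fintype.card_prod, Fintype.card_fun, Fintype.card_fun, Fintype.card_bool,
      Fintype.card_fin, Fintype.card_fin]
    have h1 : 2 ^ 2 ≤ 2 ^ s := Nat.pow_le_pow_right (by norm_num) hs
    have h2 : 1 ≤ 2 ^ m := Nat.one_le_two_pow
    nlinarith
  obtain ⟨H, hH1, hH2, hH3, hH4, hH5⟩ := closing (fink_cube (m + 1)) ((cube m).boxProd (cube s)) H₁ ι hι
    hadj hle hdeg1 hdeg2 hreach hcard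
  refine ⟨H, hH2, hH3, hH4, ?_⟩
  intro ℓ hℓ x y
  constructor
  · intro h
    rcases hH5 _ _ h with h | ⟨⟨a, ha⟩, _⟩
    · rcases h with ⟨h1, h2, h3⟩ | ⟨h1, h2, h3⟩ | ⟨h1, h2, h3⟩
      · exact h3
      · exact absurd h2.symm (hτne ℓ)
      · exact absurd h2.symm (hσne ℓ)
    · have := hrange' a
      rw [← ha] at this
      exact absurd this hℓ
  · intro h
    exact hH1 (Or.inl ⟨rfl, hℓ, h⟩)

end Pool.Agent.Lib.MP_f73734_co
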