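import Mathlib

/-!
Many perfect matchings in regular bipartite multigraphs, by Euler splittings.

A bipartite multigraph is given by a finite type `E` of edges and two maps `l : E → A`,
`r : E → B`. The main result is that a regular bipartite multigraph of degree `2 ^ j` with `n`
vertices on each side has at least `(2 ^ j / 16) ^ n` perfect matchings.
-/

namespace Pool.Agent.Lib.MP_f73734_co

open Finset

/-- Two fixed-point-free involutions: there is a 2-colouring reversed by both of them. -/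
theorem exists_two_coloring {X : Type*} [Fintype X] (τ σ : Equiv.Perm X)
    (hτ : ∀ x, τ (τ x) = x) (hσ : ∀ x, σ (σ x) = x) (hτ' : ∀ x, τ x ≠ x) (hσ' : ∀ x, σ x ≠ x) :
    ∃ c : X → Bool, (∀ x, c (τ x) = !c x) ∧ ∀ x, c (σ x) = !c x := by
  classical
  let ρ : Equiv.Perm X := τ * σ
  have hττ : τ * τ = 1 := Equiv.ext hτ
  have hσσ : σ * σ = 1 := Equiv.ext hσ
  have hinvτ : τ⁻¹ = τ := inv_eq_of_mul_eq_one_left hττ
  have hinvσ : σ⁻¹ = σ := inv_eq_of_mul_eq_one_left hσσ
  have hρinv : ρ⁻¹ = σ * τ := by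
    simp only [ρ, mul_inv_rev, hinvτ, hinvσ]
  have hconj : ∀ i : ℤ, τ * ρ ^ i = ρ ^ (-i) * τ := by
    intro i
    have h1 : τ * ρ * τ⁻¹ = ρ⁻¹ := by
      rw [hρinv, hinvτ]
      simp only [ρ, ← mul_assoc, hττ, one_mul]
    have h2 : τ * ρ ^ i * τ⁻¹ = ρ⁻¹ ^ i := by
      rw [← h1, conj_zpow]
    rw [inv_zpow, ← zpow_neg] at h2
    rw [← h2, inv_mul_cancel_right]
  have hne : ∀ x (i : ℤ), (ρ ^ i) x ≠ τ x := by
    intro x i h
    rcases Int.even_or_odd' i with ⟨j, hj | hj⟩
    · have h1 : (ρ ^ (-j)) ((ρ ^ i) x) = (ρ ^ j) x := by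
        rw [← Equiv.Perm.mul_apply, ← zpow_add, hj]
        congr 2
        ring
      rw [h, ← Equiv.Perm.mul_apply, ← hconj, Equiv.Perm.mul_apply] at h1
      exact hτ' _ h1
    · have h1 : (ρ ^ (-j)) ((ρ ^ i) x) = ρ ((ρ ^ j) x) := by
        rw [← Equiv.Perm.mul_apply, ← Equiv.Perm.mul_apply, ← zpow_add, ← zpow_one_add, hj]
        congr 2
        ring
      rw [h, ← Equiv.Perm.mul_apply, ← hconj, Equiv.Perm.mul_apply] at h1
      have h2 : ρ ((ρ ^ j) x) = τ (σ ((ρ ^ j) x)) := rfl
      rw [h2] at h1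
      exact hσ' _ (τ.injective h1).symm
  let s : Setoid X := Equiv.Perm.SameCycle.setoid ρ
  let q : X → Quotient s := fun x => ⟦x⟧
  have hq1 : ∀ x, q (ρ x) = q x := by
    intro x
    apply Quotient.sound
    exact ⟨-1, by simp⟩
  have hq2 : ∀ x, q (τ x) ≠ q x := by
    intro x h
    have h1 : ρ.SameCycle x (τ x) := Quotient.exact h.symm
    obtain ⟨i, hi⟩ := h1
    exact hne x i hi
  have hq3 : ∀ x, q (σ x) = q (τ x) := by
    intro x
    rw [← hq1 (σ x)]
    congr 1
    change τ (σ (σ x)) = τ x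
    rw [hσ]
  have hq4 : ∀ x, q (τ (σ x)) = q x := fun x => hq1 x
  let e := Fintype.equivFin (Quotient s)
  refine ⟨fun x => decide (e (q x) < e (q (τ x))), ?_, ?_⟩
  · intro x
    have h1 : e (q (τ x)) ≠ e (q x) := fun h => hq2 x (e.injective h)
    beta_reduce
    rw [hτ]
    rcases lt_or_gt_of_ne h1 with h | h
    · simp [h, not_lt.2 h.le]
    · simp [h, not_lt.2 h.le]
  · intro x
    have h1 : e (q (τ x)) ≠ e (q x) := fun h => hq2 x (e.injective h)
    beta_reduce
    rw [hq3, hq4]
    rcases lt_or_gt_of_ne h1 with h | h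
    · simp [h, not_lt.2 h.le]
    · simp [h, not_lt.2 h.le]

/-- The number of orderings of a set of size `2k` in pairs such that each pair meets both a given
subset of size `k` and its complement. -/
theorem card_orderings_le {X : Type*} [Fintype X] [DecidableEq X] (k : ℕ) (T : X → Prop)
    [DecidablePred T] (h1 : Fintype.card {x // T x} = k) (h2 : Fintype.card {x // ¬ T x} = k) :
    Fintype.card {o : Fin k × Bool ≃ X // ∀ j, T (o (j, true)) ↔ ¬ T (o (j, false))} ≤
      2 ^ k * (k.factorial * k.factorial) := by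
  classical
  have hp : ∀ (o : {o : Fin k × Bool ≃ X // ∀ j, T (o (j, true)) ↔ ¬ T (o (j, false))}) (j : Fin k),
      T (o.1 (j, decide (T (o.1 (j, true))))) := by
    intro o j
    by_cases h : T (o.1 (j, true))
    · simp [h]
    · have := (o.2 j).not.1 h
      simp only [not_not] at this
      simpa [h] using this
  have hq : ∀ (o : {o : Fin k × Bool ≃ X // ∀ j, T (o (j, true)) ↔ ¬ T (o (j, false))}) (j : Fin k),
      ¬ T (o.1 (j, !decide (T (o.1 (j, true))))) := by
    intro o j
    by_cases h : T (o.1 (j, true))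
    · have := (o.2 j).1 h
      simpa [h] using this
    · simp [h]
  let Φ : {o : Fin k × Bool ≃ X // ∀ j, T (o (j, true)) ↔ ¬ T (o (j, false))} →
      (Fin k → Bool) × ((Fin k ↪ {x // T x}) × (Fin k ↪ {x // ¬ T x})) := fun o =>
    (fun j => decide (T (o.1 (j, true))),
      ⟨fun j => ⟨_, hp o j⟩, fun j j' h => by
        have h3 := o.1.injective (congrArg Subtype.val h)
        exact congrArg Prod.fst h3⟩,
      ⟨fun j => ⟨_, hq o j⟩, fun j j' h => by
        have h3 := o.1.injective (congrArg Subtype.val h)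
        exact congrArg Prod.fst h3⟩)
  have hΦ : Function.Injective Φ := by
    intro o o' h
    have ha : ∀ j, decide (T (o.1 (j, true))) = decide (T (o'.1 (j, true))) := fun j =>
      congrFun (congrArg Prod.fst h) j
    have hb : ∀ j, o.1 (j, decide (T (o.1 (j, true)))) = o'.1 (j, decide (T (o'.1 (j, true)))) := by
      intro j
      have := congrArg (fun z => (z.2.1 j).1) h
      exact this
    have hc : ∀ j, o.1 (j, !decide (T (o.1 (j, true)))) =
        o'.1 (j, !decide (T (o'.1 (j, true)))) := by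
      intro j
      have := congrArg (fun z => (z.2.2 j).1) h
      exact this
    apply Subtype.ext
    apply Equiv.ext
    rintro ⟨j, b⟩
    have hb' := hb j
    have hc' := hc j
    rw [← ha j] at hb' hc'
    by_cases hbb : b = decide (T (o.1 (j, true)))
    · rw [hbb]; exact hb'
    · have : b = !decide (T (o.1 (j, true))) := by
        revert hbb
        cases b <;> cases decide (T (o.1 (j, true))) <;> simp
      rw [this]; exact hc'
  calc Fintype.card {o : Fin k × Bool ≃ X // ∀ j, T (o (j, true)) ↔ ¬ T (o (j, false))}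
      ≤ Fintype.card ((Fin k → Bool) × ((Fin k ↪ {x // T x}) × (Fin k ↪ {x // ¬ T x}))) :=
        Fintype.card_le_of_injective Φ hΦ
    _ = 2 ^ k * (k.factorial * k.factorial) := by
        rw [Fintype.card_prod, Fintype.card_prod, Fintype.card_embedding_eq,
          Fintype.card_embedding_eq, h1, h2]
        simp [Nat.descFactorial_self]

/-- `S` has exactly `k` elements in each fibre of `f`. -/
def Reg {E A : Type*} [DecidableEq A] (f : E → A) (S : Finset E) (k : ℕ) : Prop :=
  ∀ a, (S.filter (fun e => f e = a)).card = k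

/-- Orderings of all fibres of `f` in `S`. -/
abbrev Ord {E A : Type*} [DecidableEq A] (k : ℕ) (f : E → A) (S : Finset E) :=
  ∀ a : A, (Fin k × Bool) ≃ {e : E // e ∈ S ∧ f e = a}

/-- Compatibility of an ordering with a subset. -/
def Compat {E A : Type*} [DecidableEq A] {k : ℕ} {f : E → A} {S : Finset E} (o : Ord k f S)
    (T : Finset E) : Prop :=
  ∀ a j, (o a (j, true)).1 ∈ T ↔ ¬ (o a (j, false)).1 ∈ T

section Orders

set_option linter.unusedSectionVars false

variable {E A B : Type*} [Fintype E] [Fintype A] [Fintype B] [DecidableEq E] [DecidableEq A]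
  [DecidableEq B]

theorem card_fiber (f : E → A) (S : Finset E) {k : ℕ} (h : Reg f S k) (a : A) :
    Fintype.card {e : E // e ∈ S ∧ f e = a} = k := by
  rw [← h a, Fintype.card_subtype]
  congr 1
  ext e
  simp

theorem card_ord (k : ℕ) (f : E → A) (S : Finset E) (h : Reg f S (2 * k)) :
    Fintype.card (Ord k f S) = ((2 * k).factorial) ^ (Fintype.card A) := by
  rw [Fintype.card_pi]
  have h1 : ∀ a : A, Fintype.card ((Fin k × Bool) ≃ {e : E // e ∈ S ∧ f e = a}) =
      (2 * k).factorial := by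
    intro a
    have hc : Fintype.card (Fin k × Bool) = Fintype.card {e : E // e ∈ S ∧ f e = a} := by
      rw [card_fiber f S h a, Fintype.card_prod, Fintype.card_fin, Fintype.card_bool, mul_comm]
    rw [Fintype.card_equiv (Fintype.equivOfCardEq hc), Fintype.card_prod, Fintype.card_fin,
      Fintype.card_bool, mul_comm]
  simp_rw [h1]
  rw [Finset.prod_const, Finset.card_univ]

open Classical in
theorem card_compat_le (k : ℕ) (f : E → A) (S T : Finset E) (hTS : T ⊆ S)
    (hS : Reg f S (2 * k)) (hT : Reg f T k) :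
    Fintype.card {o : Ord k f S // Compat o T} ≤
      (2 ^ k * (k.factorial * k.factorial)) ^ (Fintype.card A) := by
  let Y : A → Type _ := fun a => {o : (Fin k × Bool) ≃ {e : E // e ∈ S ∧ f e = a} //
    ∀ j, (o (j, true)).1 ∈ T ↔ ¬ (o (j, false)).1 ∈ T}
  have h1 : Fintype.card {o : Ord k f S // Compat o T} ≤ Fintype.card (∀ a, Y a) := by
    apply Fintype.card_le_of_injective (fun o => fun a => (⟨o.1 a, fun j => o.2 a j⟩ : Y a))
    intro o o' h
    apply Subtype.ext
    funext a
    exact congrArg Subtype.val (congrFun h a)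
  refine h1.trans ?_
  rw [Fintype.card_pi]
  have h2 : ∀ a, Fintype.card (Y a) ≤ 2 ^ k * (k.factorial * k.factorial) := by
    intro a
    have hcard1 : Fintype.card {x : {e : E // e ∈ S ∧ f e = a} // x.1 ∈ T} = k := by
      rw [← card_fiber f T hT a]
      apply Fintype.card_congr
      refine ⟨fun x => ⟨x.1.1, x.2, x.1.2.2⟩, fun x => ⟨⟨x.1, hTS x.2.1, x.2.2⟩, x.2.1⟩, ?_, ?_⟩
      · intro x; rfl
      · intro x; rfl
    have hcard2 : Fintype.card {x : {e : E // e ∈ S ∧ f e = a} // ¬ x.1 ∈ T} = k := by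
      have := Fintype.card_subtype_compl (fun x : {e : E // e ∈ S ∧ f e = a} => x.1 ∈ T)
      rw [this, hcard1, card_fiber f S hS a]
      omega
    exact card_orderings_le k (fun x : {e : E // e ∈ S ∧ f e = a} => x.1 ∈ T) hcard1 hcard2
  calc ∏ a, Fintype.card (Y a) ≤ ∏ _a : A, 2 ^ k * (k.factorial * k.factorial) :=
        Finset.prod_le_prod' (fun a _ => h2 a)
    _ = _ := by rw [Finset.prod_const, Finset.card_univ]

/-- The involution of `S` exchanging partners with respect to an ordering. -/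
theorem exists_partner (k : ℕ) (f : E → A) (S : Finset E) (o : Ord k f S) :
    ∃ τ : Equiv.Perm {e : E // e ∈ S}, (∀ x, τ (τ x) = x) ∧ (∀ x, τ x ≠ x) ∧
      ∀ a j b, τ ⟨(o a (j, b)).1, (o a (j, b)).2.1⟩ =
        ⟨(o a (j, !b)).1, (o a (j, !b)).2.1⟩ := by
  obtain ⟨g, hg⟩ : ∃ g : {e : E // e ∈ S} → {e : E // e ∈ S},
      ∀ a j b, g ⟨(o a (j, b)).1, (o a (j, b)).2.1⟩ =
        ⟨(o a (j, !b)).1, (o a (j, !b)).2.1⟩ := by
    refine ⟨fun x => ⟨(o (f x.1) (((o (f x.1)).symm ⟨x.1, x.2, rfl⟩).1,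
      !((o (f x.1)).symm ⟨x.1, x.2, rfl⟩).2)).1, (o (f x.1) (((o (f x.1)).symm ⟨x.1, x.2, rfl⟩).1,
      !((o (f x.1)).symm ⟨x.1, x.2, rfl⟩).2)).2.1⟩, ?_⟩
    intro a j b
    have h1 : ∀ (a' : A) (ha' : f (o a (j, b)).1 = a'),
        (⟨(o a' (((o a').symm ⟨(o a (j, b)).1, (o a (j, b)).2.1, ha'⟩).1,
          !((o a').symm ⟨(o a (j, b)).1, (o a (j, b)).2.1, ha'⟩).2)).1,
          (o a' (((o a').symm ⟨(o a (j, b)).1, (o a (j, b)).2.1, ha'⟩).1,
          !((o a').symm ⟨(o a (j, b)).1, (o a (j, b)).2.1, ha'⟩).2)).2.1⟩ : {e : E // e ∈ S}) =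
        ⟨(o a (j, !b)).1, (o a (j, !b)).2.1⟩ := by
      intro a' ha'
      have h2 : a' = a := by rw [← ha', (o a (j, b)).2.2]
      subst h2
      have h3 : (⟨(o a' (j, b)).1, (o a' (j, b)).2.1, ha'⟩ : {e : E // e ∈ S ∧ f e = a'}) =
          o a' (j, b) := rfl
      rw [h3, Equiv.symm_apply_apply]
    exact h1 _ rfl
  have hsurj : ∀ x : {e : E // e ∈ S}, ∃ a j b, x = ⟨(o a (j, b)).1, (o a (j, b)).2.1⟩ := by
    intro x
    refine ⟨f x.1, ((o (f x.1)).symm ⟨x.1, x.2, rfl⟩).1, ((o (f x.1)).symm ⟨x.1, x.2, rfl⟩).2, ?_⟩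
    apply Subtype.ext
    simp
  have hgg : ∀ x, g (g x) = x := by
    intro x
    obtain ⟨a, j, b, rfl⟩ := hsurj x
    rw [hg, hg, Bool.not_not]
  have hgne : ∀ x, g x ≠ x := by
    intro x
    obtain ⟨a, j, b, rfl⟩ := hsurj x
    rw [hg]
    intro h
    have h1 := congrArg Subtype.val h
    have h2 : o a (j, !b) = o a (j, b) := Subtype.ext h1
    have h3 := congrArg Prod.snd ((o a).injective h2)
    simp at h3
  exact ⟨⟨g, g, hgg, hgg⟩, hgg, hgne, hg⟩

/-- A compatible subset is balanced. -/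
theorem reg_of_compat (k : ℕ) (f : E → A) (S T : Finset E) (hTS : T ⊆ S) (o : Ord k f S)
    (h : Compat o T) : Reg f T k := by
  classical
  intro a
  have h1 : (T.filter (fun e => f e = a)).card = Fintype.card {p : Fin k × Bool // (o a p).1 ∈ T} := by
    rw [← Fintype.card_coe]
    apply Fintype.card_congr
    refine ⟨fun e => ⟨(o a).symm ⟨e.1, hTS (Finset.mem_filter.1 e.2).1,
        (Finset.mem_filter.1 e.2).2⟩, ?_⟩, fun p => ⟨(o a p.1).1, ?_⟩, ?_, ?_⟩
    · rw [Equiv.apply_symm_apply]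
      exact (Finset.mem_filter.1 e.2).1
    · rw [Finset.mem_filter]
      exact ⟨p.2, (o a p.1).2.2⟩
    · intro e
      apply Subtype.ext
      simp
    · intro p
      apply Subtype.ext
      simp
  rw [h1]
  have h2 : Fintype.card {p : Fin k × Bool // (o a p).1 ∈ T} = Fintype.card (Fin k) := by
    apply Fintype.card_of_bijective (f := fun p => p.1.1)
    constructor
    · rintro ⟨⟨j, b⟩, hb⟩ ⟨⟨j', b'⟩, hb'⟩ hj
      simp only at hj
      subst hj
      have h3 := h a j
      apply Subtype.ext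
      simp only at hb hb' ⊢
      cases b <;> cases b'
      · rfl
      · exact absurd hb (h3.1 hb')
      · exact absurd hb' (h3.1 hb)
      · rfl
    · intro j
      by_cases hj : (o a (j, true)).1 ∈ T
      · exact ⟨⟨(j, true), hj⟩, rfl⟩
      · have := (h a j).not.1 hj
        rw [not_not] at this
        exact ⟨⟨(j, false), this⟩, rfl⟩
  rw [h2, Fintype.card_fin]

/-- The balanced subsets. -/
def bal (l : E → A) (r : E → B) (S : Finset E) (k : ℕ) : Finset (Finset E) :=
  S.powerset.filter (fun T => (∀ a, (T.filter (fun e => l e = a)).card = k) ∧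
    ∀ b, (T.filter (fun e => r e = b)).card = k)

theorem mem_bal (l : E → A) (r : E → B) (S : Finset E) (k : ℕ) (T : Finset E) :
    T ∈ bal l r S k ↔ T ⊆ S ∧ Reg l T k ∧ Reg r T k := by
  unfold bal
  rw [Finset.mem_filter, Finset.mem_powerset]
  rfl

theorem exists_compat (k : ℕ) (l : E → A) (r : E → B) (S : Finset E) (o : Ord k l S)
    (o' : Ord k r S) : ∃ T ∈ bal l r S k, Compat o T ∧ Compat o' T := by
  classical
  obtain ⟨τ, hτ1, hτ2, hτ3⟩ := exists_partner k l S o
  obtain ⟨σ, hσ1, hσ2, hσ3⟩ := exists_partner k r S o'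
  obtain ⟨c, hc1, hc2⟩ := exists_two_coloring τ σ hτ1 hσ1 hτ2 hσ2
  let T : Finset E := Finset.univ.filter (fun e => ∃ h : e ∈ S, c ⟨e, h⟩ = true)
  have hT : ∀ (e : E) (he : e ∈ S), e ∈ T ↔ c ⟨e, he⟩ = true := by
    intro e he
    simp only [T, Finset.mem_filter, Finset.mem_univ, true_and]
    exact ⟨fun ⟨_, h⟩ => h, fun h => ⟨he, h⟩⟩
  have hTS : T ⊆ S := by
    intro e he
    simp only [T, Finset.mem_filter, Finset.mem_univ, true_and] at he
    exact he.1
  have h1 : Compat o T := by
    intro a j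
    rw [hT _ (o a (j, true)).2.1, hT _ (o a (j, false)).2.1]
    have h2 := hc1 ⟨(o a (j, false)).1, (o a (j, false)).2.1⟩
    rw [hτ3, Bool.not_false] at h2
    rw [h2]
    simp
  have h2 : Compat o' T := by
    intro a j
    rw [hT _ (o' a (j, true)).2.1, hT _ (o' a (j, false)).2.1]
    have h2 := hc2 ⟨(o' a (j, false)).1, (o' a (j, false)).2.1⟩
    rw [hσ3, Bool.not_false] at h2
    rw [h2]
    simp
  refine ⟨T, ?_, h1, h2⟩
  rw [mem_bal]
  exact ⟨hTS, reg_of_compat k l S T hTS o h1, reg_of_compat k r S T hTS o' h2⟩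

/-- The number of Euler splittings of a regular bipartite multigraph of degree `2k`. -/
theorem euler_count (k : ℕ) (l : E → A) (r : E → B) (S : Finset E) (hl : Reg l S (2 * k))
    (hr : Reg r S (2 * k)) :
    ((2 * k).factorial) ^ (Fintype.card A + Fintype.card B) ≤
      (bal l r S k).card * (2 ^ k * (k.factorial * k.factorial)) ^
        (Fintype.card A + Fintype.card B) := by
  classical
  choose T hT1 hT2 hT3 using fun p : Ord k l S × Ord k r S => exists_compat k l r S p.1 p.2
  have h1 : Fintype.card (Ord k l S × Ord k r S) ≤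
      Fintype.card (Σ T : {T // T ∈ bal l r S k}, {o : Ord k l S // Compat o T.1} ×
        {o : Ord k r S // Compat o T.1}) := by
    apply Fintype.card_le_of_injective
      (fun p => ⟨⟨T p, hT1 p⟩, ⟨p.1, hT2 p⟩, ⟨p.2, hT3 p⟩⟩)
    intro p p' h
    let Ψ : (Σ T : {T // T ∈ bal l r S k}, {o : Ord k l S // Compat o T.1} ×
        {o : Ord k r S // Compat o T.1}) → Ord k l S × Ord k r S := fun q => (q.2.1.1, q.2.2.1)
    exact congrArg Ψ h
  rw [Fintype.card_prod, card_ord k l S hl, card_ord k r S hr, ← pow_add, Fintype.card_sigma] at h1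
  refine h1.trans ?_
  calc ∑ T : {T // T ∈ bal l r S k}, Fintype.card ({o : Ord k l S // Compat o T.1} ×
        {o : Ord k r S // Compat o T.1})
      ≤ ∑ _T : {T // T ∈ bal l r S k}, (2 ^ k * (k.factorial * k.factorial)) ^
        (Fintype.card A + Fintype.card B) := by
        apply Finset.sum_le_sum
        intro T _
        have hT := (mem_bal l r S k T.1).1 T.2
        rw [Fintype.card_prod, pow_add]
        exact Nat.mul_le_mul (card_compat_le k l S T.1 hT.1 hl hT.2.1)
          (card_compat_le k r S T.1 hT.1 hr hT.2.2)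
    _ = _ := by
        rw [Finset.sum_const, Finset.card_univ, Fintype.card_coe, smul_eq_mul]

end Orders

end Pool.Agent.Lib.MP_f73734_co
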