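import Mathlib
import Pool.Agent.Lib.MP_f73734_co.Euler

/-!
Factorizations of regular bipartite multigraphs in perfect matchings, and the lower bound for the
number of perfect matchings.
-/

namespace Pool.Agent.Lib.MP_f73734_co

open Finset

section Factor

set_option linter.unusedSectionVars false

variable {E A B : Type*} [Fintype E] [Fintype A] [Fintype B] [DecidableEq E] [DecidableEq A]
  [DecidableEq B]

/-- A convenient form of the lower bound for the number of Euler splittings. -/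
theorem bal_lower (k : ℕ) (hk : 0 < k) (l : E → A) (r : E → B) (S : Finset E)
    (hl : Reg l S (2 * k)) (hr : Reg r S (2 * k)) :
    2 ^ (k * (Fintype.card A + Fintype.card B)) ≤
      (2 * k) ^ (Fintype.card A + Fintype.card B) * (bal l r S k).card := by
  set N := Fintype.card A + Fintype.card B with hN
  have h1 := euler_count k l r S hl hr
  rw [← hN] at h1
  have h2 : (2 * k).factorial = k.centralBinom * (k.factorial * k.factorial) := by
    rw [Nat.centralBinom_eq_two_mul_choose, ← mul_assoc]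
    have := Nat.choose_mul_factorial_mul_factorial (show k ≤ 2 * k by omega)
    rw [show 2 * k - k = k by omega] at this
    exact this.symm
  rw [h2, mul_pow, mul_pow (2 ^ k), ← mul_assoc] at h1
  have hpos : 0 < (k.factorial * k.factorial) ^ N := by positivity
  have h3 : k.centralBinom ^ N ≤ (bal l r S k).card * (2 ^ k) ^ N :=
    Nat.le_of_mul_le_mul_right h1 hpos
  have h4 : 4 ^ k ≤ 2 * k * k.centralBinom := Nat.four_pow_le_two_mul_self_mul_centralBinom k hk
  have h5 : (4 ^ k) ^ N ≤ (2 * k * k.centralBinom) ^ N := Nat.pow_le_pow_left h4 N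
  have h6 : (4 ^ k) ^ N = (2 ^ (k * N)) * (2 ^ k) ^ N := by
    rw [← pow_mul, ← pow_mul, show (4 : ℕ) = 2 ^ 2 by norm_num, ← pow_mul, ← pow_add]
    congr 1
    ring
  rw [h6, mul_pow (2 * k)] at h5
  have h7 : 2 ^ (k * N) * (2 ^ k) ^ N ≤ ((2 * k) ^ N * (bal l r S k).card) * (2 ^ k) ^ N := by
    calc 2 ^ (k * N) * (2 ^ k) ^ N ≤ (2 * k) ^ N * k.centralBinom ^ N := h5
      _ ≤ (2 * k) ^ N * ((bal l r S k).card * (2 ^ k) ^ N) := Nat.mul_le_mul_left _ h3
      _ = _ := by ring
  exact Nat.le_of_mul_le_mul_right h7 (by positivity)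

/-- Tuples of perfect matchings with union `S`. -/
def decs (l : E → A) (r : E → B) (j : ℕ) (S : Finset E) : Finset ((Fin j → Bool) → Finset E) :=
  Finset.univ.filter (fun M => (∀ c, (∀ a, ((M c).filter (fun e => l e = a)).card = 1) ∧
    ∀ b, ((M c).filter (fun e => r e = b)).card = 1) ∧ Finset.univ.biUnion M = S)

theorem mem_decs (l : E → A) (r : E → B) (j : ℕ) (S : Finset E) (M : (Fin j → Bool) → Finset E) :
    M ∈ decs l r j S ↔ (∀ c, Reg l (M c) 1 ∧ Reg r (M c) 1) ∧ Finset.univ.biUnion M = S := by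
  unfold decs
  rw [Finset.mem_filter]
  constructor
  · intro h; exact h.2
  · intro h; exact ⟨Finset.mem_univ _, h⟩

/-- The complement of a balanced set in `S` is balanced. -/
theorem reg_sdiff (f : E → A) (S T : Finset E) (k : ℕ) (hTS : T ⊆ S) (hS : Reg f S (2 * k))
    (hT : Reg f T k) : Reg f (S \ T) k := by
  intro a
  have h1 : (S \ T).filter (fun e => f e = a) = S.filter (fun e => f e = a) \ T.filter (fun e => f e = a) := by
    ext e
    simp only [Finset.mem_filter, Finset.mem_sdiff]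
    tauto
  rw [h1, Finset.card_sdiff_of_subset (Finset.filter_subset_filter _ hTS), hS a, hT a]
  omega

theorem decs_step (l : E → A) (r : E → B) (j : ℕ) (S : Finset E) :
    ∑ T ∈ bal l r S (2 ^ j), (decs l r j T).card * (decs l r j (S \ T)).card ≤
      (decs l r (j + 1) S).card := by
  classical
  have h1 : ∑ T ∈ bal l r S (2 ^ j), (decs l r j T).card * (decs l r j (S \ T)).card =
      ((bal l r S (2 ^ j)).sigma (fun T => (decs l r j T) ×ˢ (decs l r j (S \ T)))).card := by
    rw [Finset.card_sigma]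
    apply Finset.sum_congr rfl
    intro T _
    rw [Finset.card_product]
  rw [h1]
  apply Finset.card_le_card_of_injOn
    (fun q => fun c => if c 0 = true then q.2.1 (fun i => c i.succ) else q.2.2 (fun i => c i.succ))
  · rintro ⟨T, M, M'⟩ hq
    simp only [Finset.coe_sigma, Set.mem_sigma_iff, Finset.mem_coe, Finset.mem_product] at hq
    obtain ⟨hT, hM, hM'⟩ := hq
    rw [mem_decs] at hM hM'
    rw [Finset.mem_coe, mem_decs]
    refine ⟨?_, ?_⟩
    · intro c
      by_cases hc : c 0 = true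
      · simp only [hc, if_true]; exact hM.1 _
      · simp only [hc]; exact hM'.1 _
    · ext e
      rw [Finset.mem_biUnion]
      have hTS := ((mem_bal l r S (2 ^ j) T).1 hT).1
      have hM2 : e ∈ T ↔ ∃ c, e ∈ M c := by
        rw [← hM.2, Finset.mem_biUnion]; simp
      have hM3 : e ∈ S \ T ↔ ∃ c, e ∈ M' c := by
        rw [← hM'.2, Finset.mem_biUnion]; simp
      constructor
      · rintro ⟨c, _, hc⟩
        by_cases hc0 : c 0 = true
        · simp only [hc0, if_true] at hc
          exact hTS (hM2.2 ⟨_, hc⟩)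
        · simp only [hc0] at hc
          exact (Finset.mem_sdiff.1 (hM3.2 ⟨_, hc⟩)).1
      · intro he
        by_cases heT : e ∈ T
        · obtain ⟨c, hc⟩ := hM2.1 heT
          exact ⟨Fin.cons true c, Finset.mem_univ _, by simpa using hc⟩
        · obtain ⟨c, hc⟩ := hM3.1 (Finset.mem_sdiff.2 ⟨he, heT⟩)
          exact ⟨Fin.cons false c, Finset.mem_univ _, by simpa using hc⟩
  · rintro ⟨T, M, M'⟩ hq ⟨U, L, L'⟩ hq' h
    simp only [Finset.coe_sigma, Set.mem_sigma_iff, Finset.mem_coe, Finset.mem_product] at hq hq'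
    obtain ⟨hT, hM, hM'⟩ := hq
    obtain ⟨hU, hL, hL'⟩ := hq'
    rw [mem_decs] at hM hM' hL hL'
    have h1 : M = L := by
      funext c
      have := congrFun h (Fin.cons true c)
      simpa using this
    have h2 : M' = L' := by
      funext c
      have := congrFun h (Fin.cons false c)
      simpa using this
    subst h1
    subst h2
    have h3 : T = U := by rw [← hM.2, ← hL.2]
    subst h3
    rfl

/-- Lower bound for the number of factorizations. -/
theorem decs_lower (n : ℕ) (hA : Fintype.card A = n) (hB : Fintype.card B = n)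
    (l : E → A) (r : E → B) : ∀ (j : ℕ) (S : Finset E), Reg l S (2 ^ j) → Reg r S (2 ^ j) →
    2 ^ (j * 2 ^ j * n) * 2 ^ ((2 * j + 4) * n) ≤ (decs l r j S).card * 2 ^ (4 * 2 ^ j * n) := by
  intro j
  induction j with
  | zero =>
    intro S hl hr
    have h1 : 1 ≤ (decs l r 0 S).card := by
      rw [Nat.one_le_iff_ne_zero, Finset.card_ne_zero]
      refine ⟨fun _ => S, ?_⟩
      rw [mem_decs]
      refine ⟨fun _ => ⟨hl, hr⟩, ?_⟩
      ext e
      simp
    calc 2 ^ (0 * 2 ^ 0 * n) * 2 ^ ((2 * 0 + 4) * n) = 1 * 2 ^ (4 * 2 ^ 0 * n) := by simp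
      _ ≤ _ := Nat.mul_le_mul_right _ h1
  | succ j ih =>
    intro S hl hr
    have hbal := bal_lower (2 ^ j) (by positivity) l r S
      (by rw [← pow_succ']; exact hl) (by rw [← pow_succ']; exact hr)
    rw [hA, hB] at hbal
    have hstep := decs_step l r j S
    -- every summand is large
    have hterm : ∀ T ∈ bal l r S (2 ^ j),
        (2 ^ (j * 2 ^ j * n) * 2 ^ ((2 * j + 4) * n)) ^ 2 ≤
          ((decs l r j T).card * (decs l r j (S \ T)).card) * (2 ^ (4 * 2 ^ j * n)) ^ 2 := by
      intro T hT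
      obtain ⟨hTS, hT1, hT2⟩ := (mem_bal l r S (2 ^ j) T).1 hT
      have h1 := ih T hT1 hT2
      have h2 := ih (S \ T) (reg_sdiff l S T (2 ^ j) hTS (by rw [← pow_succ']; exact hl) hT1)
        (reg_sdiff r S T (2 ^ j) hTS (by rw [← pow_succ']; exact hr) hT2)
      calc (2 ^ (j * 2 ^ j * n) * 2 ^ ((2 * j + 4) * n)) ^ 2
          = (2 ^ (j * 2 ^ j * n) * 2 ^ ((2 * j + 4) * n)) *
            (2 ^ (j * 2 ^ j * n) * 2 ^ ((2 * j + 4) * n)) := by ring
        _ ≤ ((decs l r j T).card * 2 ^ (4 * 2 ^ j * n)) *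
            ((decs l r j (S \ T)).card * 2 ^ (4 * 2 ^ j * n)) := Nat.mul_le_mul h1 h2
        _ = _ := by ring
    have hsum : (bal l r S (2 ^ j)).card * (2 ^ (j * 2 ^ j * n) * 2 ^ ((2 * j + 4) * n)) ^ 2 ≤
        (decs l r (j + 1) S).card * (2 ^ (4 * 2 ^ j * n)) ^ 2 := by
      calc (bal l r S (2 ^ j)).card * (2 ^ (j * 2 ^ j * n) * 2 ^ ((2 * j + 4) * n)) ^ 2
          = ∑ _T ∈ bal l r S (2 ^ j), (2 ^ (j * 2 ^ j * n) * 2 ^ ((2 * j + 4) * n)) ^ 2 := by
            rw [Finset.sum_const, smul_eq_mul]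
        _ ≤ ∑ T ∈ bal l r S (2 ^ j),
            ((decs l r j T).card * (decs l r j (S \ T)).card) * (2 ^ (4 * 2 ^ j * n)) ^ 2 :=
            Finset.sum_le_sum hterm
        _ = (∑ T ∈ bal l r S (2 ^ j), (decs l r j T).card * (decs l r j (S \ T)).card) *
            (2 ^ (4 * 2 ^ j * n)) ^ 2 := by rw [Finset.sum_mul]
        _ ≤ _ := Nat.mul_le_mul_right _ hstep
    -- combine
    have hb2 : 2 ^ (2 ^ j * (n + n)) ≤ 2 ^ ((j + 1) * (n + n)) * (bal l r S (2 ^ j)).card := by
      have : (2 * 2 ^ j) ^ (n + n) = 2 ^ ((j + 1) * (n + n)) := by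
        rw [← pow_succ', ← pow_mul]
      rwa [this] at hbal
    have hfin : 2 ^ (2 ^ j * (n + n)) * (2 ^ (j * 2 ^ j * n) * 2 ^ ((2 * j + 4) * n)) ^ 2 ≤
        2 ^ ((j + 1) * (n + n)) * ((decs l r (j + 1) S).card * (2 ^ (4 * 2 ^ j * n)) ^ 2) := by
      calc 2 ^ (2 ^ j * (n + n)) * (2 ^ (j * 2 ^ j * n) * 2 ^ ((2 * j + 4) * n)) ^ 2
          ≤ (2 ^ ((j + 1) * (n + n)) * (bal l r S (2 ^ j)).card) *
            (2 ^ (j * 2 ^ j * n) * 2 ^ ((2 * j + 4) * n)) ^ 2 := Nat.mul_le_mul_right _ hb2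
        _ = 2 ^ ((j + 1) * (n + n)) * ((bal l r S (2 ^ j)).card *
            (2 ^ (j * 2 ^ j * n) * 2 ^ ((2 * j + 4) * n)) ^ 2) := by ring
        _ ≤ _ := Nat.mul_le_mul_left _ hsum
    have e1 : 2 ^ (2 ^ j * (n + n)) * (2 ^ (j * 2 ^ j * n) * 2 ^ ((2 * j + 4) * n)) ^ 2 =
        (2 ^ ((j + 1) * 2 ^ (j + 1) * n) * 2 ^ ((2 * (j + 1) + 4) * n)) *
          2 ^ ((j + 1) * (n + n)) := by
      rw [← pow_add, ← pow_mul, ← pow_add, ← pow_add, ← pow_add]
      congr 1
      rw [pow_succ 2 j]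
      ring
    have e2 : 2 ^ ((j + 1) * (n + n)) * ((decs l r (j + 1) S).card * (2 ^ (4 * 2 ^ j * n)) ^ 2) =
        ((decs l r (j + 1) S).card * 2 ^ (4 * 2 ^ (j + 1) * n)) * 2 ^ ((j + 1) * (n + n)) := by
      have : (2 ^ (4 * 2 ^ j * n)) ^ 2 = 2 ^ (4 * 2 ^ (j + 1) * n) := by
        rw [← pow_mul]
        congr 1
        rw [pow_succ 2 j]
        ring
      rw [this]
      ring
    rw [e1, e2] at hfin
    exact Nat.le_of_mul_le_mul_right hfin (by positivity)

/-- The perfect matchings. -/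
def pms (l : E → A) (r : E → B) : Finset (Finset E) :=
  Finset.univ.filter (fun M => (∀ a, (M.filter (fun e => l e = a)).card = 1) ∧
    ∀ b, (M.filter (fun e => r e = b)).card = 1)

theorem mem_pms (l : E → A) (r : E → B) (M : Finset E) :
    M ∈ pms l r ↔ Reg l M 1 ∧ Reg r M 1 := by
  unfold pms
  rw [Finset.mem_filter]
  constructor
  · intro h; exact h.2
  · intro h; exact ⟨Finset.mem_univ _, h⟩

/-- **Lower bound for perfect matchings.** A regular bipartite multigraph of degree `2 ^ j` with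
`n` vertices on each side has at least `(2 ^ j / 16) ^ n` perfect matchings. -/
theorem pms_lower (n : ℕ) (hA : Fintype.card A = n) (hB : Fintype.card B = n)
    (l : E → A) (r : E → B) (j : ℕ) (hl : Reg l Finset.univ (2 ^ j))
    (hr : Reg r Finset.univ (2 ^ j)) :
    (2 ^ j) ^ n ≤ (pms l r).card * 16 ^ n := by
  have h1 := decs_lower n hA hB l r j Finset.univ hl hr
  have h2 : (decs l r j Finset.univ).card ≤ (pms l r).card ^ (2 ^ j) := by
    have h3 : (decs l r j Finset.univ).card ≤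
        (Fintype.piFinset (fun _ : Fin j → Bool => pms l r)).card := by
      apply Finset.card_le_card
      intro M hM
      rw [mem_decs] at hM
      rw [Fintype.mem_piFinset]
      intro c
      rw [mem_pms]
      exact hM.1 c
    rw [Fintype.card_piFinset, Finset.prod_const, Finset.card_univ, Fintype.card_fun,
      Fintype.card_bool, Fintype.card_fin] at h3
    exact h3
  have h4 : ((2 ^ j) ^ n) ^ (2 ^ j) ≤ ((pms l r).card * 16 ^ n) ^ (2 ^ j) := by
    calc ((2 ^ j) ^ n) ^ (2 ^ j) = 2 ^ (j * 2 ^ j * n) := by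
          rw [← pow_mul, ← pow_mul]; congr 1; ring
      _ ≤ 2 ^ (j * 2 ^ j * n) * 2 ^ ((2 * j + 4) * n) :=
          Nat.le_mul_of_pos_right _ (by positivity)
      _ ≤ (decs l r j Finset.univ).card * 2 ^ (4 * 2 ^ j * n) := h1
      _ ≤ (pms l r).card ^ (2 ^ j) * 2 ^ (4 * 2 ^ j * n) := Nat.mul_le_mul_right _ h2
      _ = _ := by
          rw [mul_pow, show (16 : ℕ) = 2 ^ 4 by norm_num, ← pow_mul, ← pow_mul]
          congr 2
          ring
  exact le_of_pow_le_pow_left₀ (by positivity) (by positivity) h4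

end Factor

end Pool.Agent.Lib.MP_f73734_co
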