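import Mathlib
import Pool.Agent.Lib.MP_f73734_co.Factor

/-!
Many injective choice functions.
-/

namespace Pool.Agent.Lib.MP_f73734_co

open Finset

/-- If every element of `A` has at least `2 ^ j` neighbours in `B` and every element of `B` has at
most `2 ^ j` neighbours in `A`, then there are at least `(2 ^ j) ^ |A| / 16 ^ |B|` injective maps
from `A` to `B` along edges. -/
theorem inj_lower {A B : Type} [Fintype A] [Fintype B] [DecidableEq A] [DecidableEq B] (j : ℕ)
    (N : A → Finset B) (hN : ∀ a, 2 ^ j ≤ (N a).card)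
    (hd : ∀ b, (Finset.univ.filter (fun a => b ∈ N a)).card ≤ 2 ^ j) :
    (2 ^ j) ^ (Fintype.card A) ≤
      Nat.card {f : A → B // Function.Injective f ∧ ∀ a, f a ∈ N a} * 16 ^ (Fintype.card B) := by
  classical
  set d : ℕ := 2 ^ j with hdd
  have hdpos : 0 < d := by positivity
  -- shrink the neighbourhoods
  choose N' hN'1 hN'2 using fun a => Finset.exists_subset_card_eq (hN a)
  -- degrees on the right
  let deg : B → ℕ := fun b => (Finset.univ.filter (fun a => b ∈ N' a)).card
  have hdeg : ∀ b, deg b ≤ d := by
    intro b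
    refine le_trans (Finset.card_le_card ?_) (hd b)
    intro a ha
    rw [Finset.mem_filter] at ha ⊢
    exact ⟨ha.1, hN'1 a ha.2⟩
  have hsumdeg : ∑ b, deg b = d * Fintype.card A := by
    have h1 : ∑ b, deg b = ∑ a, (N' a).card := by
      simp only [deg, Finset.card_filter]
      rw [Finset.sum_comm]
      apply Finset.sum_congr rfl
      intro a _
      rw [← Finset.card_filter]
      congr 1
      ext b
      simp
    rw [h1]
    simp only [hN'2]
    rw [Finset.sum_const, Finset.card_univ, smul_eq_mul, mul_comm]
  have hAB : Fintype.card A ≤ Fintype.card B := by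
    have h1 : d * Fintype.card A ≤ d * Fintype.card B := by
      rw [← hsumdeg]
      calc ∑ b, deg b ≤ ∑ _b : B, d := Finset.sum_le_sum (fun b _ => hdeg b)
        _ = d * Fintype.card B := by rw [Finset.sum_const, Finset.card_univ, smul_eq_mul, mul_comm]
    exact Nat.le_of_mul_le_mul_left h1 hdpos
  obtain ⟨q, hq⟩ := Nat.exists_eq_add_of_le hAB
  -- the dummy edges
  have hslots : Fintype.card (Fin q × Fin d) = Fintype.card (Σ b : B, Fin (d - deg b)) := by
    rw [Fintype.card_prod, Fintype.card_sigma]
    simp only [Fintype.card_fin]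
    have h1 : ∑ b, (d - deg b) + ∑ b, deg b = d * Fintype.card B := by
      rw [← Finset.sum_add_distrib]
      calc ∑ b, (d - deg b + deg b) = ∑ _b : B, d :=
            Finset.sum_congr rfl (fun b _ => Nat.sub_add_cancel (hdeg b))
        _ = d * Fintype.card B := by rw [Finset.sum_const, Finset.card_univ, smul_eq_mul, mul_comm]
    rw [hsumdeg, hq] at h1
    have h2 : d * (Fintype.card A + q) = q * d + d * Fintype.card A := by ring
    rw [h2] at h1
    omega
  let φ : (Fin q × Fin d) ≃ (Σ b : B, Fin (d - deg b)) := Fintype.equivOfCardEq hslots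
  let e : ∀ a, Fin d ≃ {b // b ∈ N' a} := fun a =>
    (Fintype.equivFinOfCardEq (by rw [Fintype.card_coe, hN'2])).symm
  let E := (A ⊕ Fin q) × Fin d
  let l : E → A ⊕ Fin q := Prod.fst
  let r : E → B := fun x => match x with
    | (Sum.inl a, i) => (e a i).1
    | (Sum.inr t, i) => (φ (t, i)).1
  have hr1 : ∀ a i, r (Sum.inl a, i) = (e a i).1 := fun a i => rfl
  have hr2 : ∀ t i, r (Sum.inr t, i) = (φ (t, i)).1 := fun t i => rfl
  have hl : Reg l Finset.univ d := by
    intro x
    have : (Finset.univ.filter (fun y : E => l y = x)) = Finset.univ.image (fun i : Fin d => (x, i)) := by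
      ext y
      simp only [Finset.mem_filter, Finset.mem_univ, true_and, Finset.mem_image]
      constructor
      · intro h; exact ⟨y.2, Prod.ext h.symm rfl⟩
      · rintro ⟨i, h⟩; rw [← h]
    rw [this, Finset.card_image_of_injective _ (fun i i' h => (Prod.mk.inj h).2), Finset.card_univ,
      Fintype.card_fin]
  have hr : Reg r Finset.univ d := by
    intro b
    have h1 : (Finset.univ.filter (fun y : E => r y = b)).card =
        Fintype.card ({a // b ∈ N' a} ⊕ Fin (d - deg b)) := by
      rw [← Fintype.card_coe]
      apply Fintype.card_congr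
      symm
      refine Equiv.ofBijective (fun z => match z with
        | Sum.inl a => ⟨(Sum.inl a.1, (e a.1).symm ⟨b, a.2⟩), by
            rw [Finset.mem_filter]; exact ⟨Finset.mem_univ _, by rw [hr1, Equiv.apply_symm_apply]⟩⟩
        | Sum.inr i => ⟨(Sum.inr (φ.symm ⟨b, i⟩).1, (φ.symm ⟨b, i⟩).2), by
            rw [Finset.mem_filter]; exact ⟨Finset.mem_univ _, by
              rw [hr2, Prod.mk.eta, Equiv.apply_symm_apply]⟩⟩) ⟨?_, ?_⟩
      · rintro (a | i) (a' | i') h
        · have h1 := congrArg (fun z => z.1.1) h
          simp only [Sum.inl.injEq] at h1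
          rw [Subtype.ext h1]
        · have h1 := congrArg (fun z => z.1.1) h
          simp at h1
        · have h1 := congrArg (fun z => z.1.1) h
          simp at h1
        · have h1 := congrArg (fun z => z.1.1) h
          have h2 := congrArg (fun z => z.1.2) h
          simp only [Sum.inr.injEq] at h1 h2
          have h3 : φ.symm ⟨b, i⟩ = φ.symm ⟨b, i'⟩ := Prod.ext h1 h2
          have h4 := φ.symm.injective h3
          simp only [Sigma.mk.injEq, heq_eq_eq, true_and] at h4
          rw [h4]
      · rintro ⟨⟨a | t, i⟩, hy⟩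
        · rw [Finset.mem_filter] at hy
          have hb : (e a i).1 = b := hy.2
          have hab : b ∈ N' a := by rw [← hb]; exact (e a i).2
          refine ⟨Sum.inl ⟨a, hab⟩, ?_⟩
          apply Subtype.ext
          refine Prod.ext rfl ?_
          change (e a).symm ⟨b, hab⟩ = i
          rw [Equiv.symm_apply_eq]
          exact Subtype.ext hb.symm
        · rw [Finset.mem_filter] at hy
          have hb : (φ (t, i)).1 = b := hy.2
          subst hb
          refine ⟨Sum.inr (φ (t, i)).2, ?_⟩
          apply Subtype.ext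
          simp
    rw [h1, Fintype.card_sum, Fintype.card_fin]
    have h2 : Fintype.card {a // b ∈ N' a} = deg b := by
      rw [Fintype.card_subtype]
    rw [h2]
    have := hdeg b
    omega
  have hcardL : Fintype.card (A ⊕ Fin q) = Fintype.card B := by
    rw [Fintype.card_sum, Fintype.card_fin, hq]
  have hmain := pms_lower (Fintype.card B) hcardL rfl l r j hl hr
  -- perfect matchings give injections
  have hM : ∀ M : {M // M ∈ pms l r}, ∀ x : A ⊕ Fin q, ∃ i : Fin d, (x, i) ∈ M.1 := by
    rintro ⟨M, hM⟩ x
    rw [mem_pms] at hM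
    obtain ⟨y, hy⟩ := Finset.card_eq_one.1 (hM.1 x)
    have : y ∈ M.filter (fun e => l e = x) := by rw [hy]; simp
    rw [Finset.mem_filter] at this
    refine ⟨y.2, ?_⟩
    have h2 : (x, y.2) = y := by rw [← this.2]
    rw [h2]
    exact this.1
  choose ix hix using hM
  have hMiff : ∀ (M : {M // M ∈ pms l r}) (x : A ⊕ Fin q) (i : Fin d), (x, i) ∈ M.1 ↔ i = ix M x := by
    rintro M x i
    constructor
    · intro h
      have hM := M.2
      rw [mem_pms] at hM
      obtain ⟨y, hy⟩ := Finset.card_eq_one.1 (hM.1 x)
      have h1 : (x, i) ∈ M.1.filter (fun e => l e = x) := by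
        rw [Finset.mem_filter]; exact ⟨h, rfl⟩
      have h2 : (x, ix M x) ∈ M.1.filter (fun e => l e = x) := by
        rw [Finset.mem_filter]; exact ⟨hix M x, rfl⟩
      rw [hy, Finset.mem_singleton] at h1 h2
      rw [← h2] at h1
      exact (Prod.mk.inj h1).2
    · rintro rfl
      exact hix M x
  let Φ : {M // M ∈ pms l r} → {f : A → B // Function.Injective f ∧ ∀ a, f a ∈ N a} × (Fin q → Fin d) :=
    fun M => (⟨fun a => r (Sum.inl a, ix M (Sum.inl a)), by
      constructor
      · intro a a' haa
        have hM := M.2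
        rw [mem_pms] at hM
        obtain ⟨y, hy⟩ := Finset.card_eq_one.1 (hM.2 (r (Sum.inl a, ix M (Sum.inl a))))
        have h1 : (Sum.inl a, ix M (Sum.inl a)) ∈
            M.1.filter (fun e => r e = r (Sum.inl a, ix M (Sum.inl a))) := by
          rw [Finset.mem_filter]; exact ⟨hix M _, rfl⟩
        have h2 : (Sum.inl a', ix M (Sum.inl a')) ∈
            M.1.filter (fun e => r e = r (Sum.inl a, ix M (Sum.inl a))) := by
          rw [Finset.mem_filter]; exact ⟨hix M _, haa.symm⟩
        rw [hy, Finset.mem_singleton] at h1 h2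
        rw [← h2] at h1
        exact Sum.inl.inj (Prod.mk.inj h1).1
      · intro a
        exact hN'1 a (e a _).2⟩, fun t => ix M (Sum.inr t))
  have hΦ : Function.Injective Φ := by
    intro M M' h
    have h1 : ∀ a, ix M (Sum.inl a) = ix M' (Sum.inl a) := by
      intro a
      have := congrArg (fun z => z.1.1 a) h
      have h2 : (e a (ix M (Sum.inl a))).1 = (e a (ix M' (Sum.inl a))).1 := this
      exact (e a).injective (Subtype.ext h2)
    have h2 : ∀ t, ix M (Sum.inr t) = ix M' (Sum.inr t) := by
      intro t
      exact congrArg (fun z => z.2 t) h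
    apply Subtype.ext
    ext ⟨x, i⟩
    rw [hMiff, hMiff]
    rcases x with a | t
    · rw [h1]
    · rw [h2]
  have hcount : (pms l r).card ≤
      Nat.card {f : A → B // Function.Injective f ∧ ∀ a, f a ∈ N a} * d ^ q := by
    have h1 := Fintype.card_le_of_injective Φ hΦ
    rw [Fintype.card_coe, Fintype.card_prod, Fintype.card_fun, Fintype.card_fin,
      Fintype.card_fin] at h1
    rw [Nat.card_eq_fintype_card]
    exact h1
  have hfin : d ^ (Fintype.card A) * d ^ q ≤
      (Nat.card {f : A → B // Function.Injective f ∧ ∀ a, f a ∈ N a} * 16 ^ (Fintype.card B)) *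
        d ^ q := by
    calc d ^ (Fintype.card A) * d ^ q = d ^ (Fintype.card B) := by rw [← pow_add, hq]
      _ ≤ (pms l r).card * 16 ^ (Fintype.card B) := hmain
      _ ≤ (Nat.card {f : A → B // Function.Injective f ∧ ∀ a, f a ∈ N a} * d ^ q) *
          16 ^ (Fintype.card B) := Nat.mul_le_mul_right _ hcount
      _ = _ := by ring
  exact Nat.le_of_mul_le_mul_right hfin (by positivity)

end Pool.Agent.Lib.MP_f73734_co
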