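import Mathlib
import Pool.Agent.Lib.MP_f73734_co.Inject
import Pool.Agent.Lib.MP_f73734_co.Assembly

/-!
Many chain decompositions of the Boolean lattice of odd rank `2h + 1`, `h + 1 = 2 ^ j`, with
prescribed sets of bottoms and tops.
-/

namespace Pool.Agent.Lib.MP_f73734_co

open Finset

section Weight

variable {m : ℕ}

/-- The number of coordinates equal to `true`. -/
def wt (x : Fin m → Bool) : ℕ := (Finset.univ.filter (fun i => x i = true)).card

theorem wt_le (x : Fin m → Bool) : wt x ≤ m := by
  unfold wt
  calc _ ≤ (Finset.univ : Finset (Fin m)).card := Finset.card_filter_le _ _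
    _ = m := by simp

theorem adj_iff_flip (x y : Fin m → Bool) : (cube m).Adj x y ↔ ∃ i, y = flip i x := by
  constructor
  · rintro ⟨i, hi, huniq⟩
    refine ⟨i, ?_⟩
    funext k
    by_cases hk : k = i
    · subst hk
      simp only [flip, Function.update_self]
      revert hi
      cases x k <;> cases y k <;> simp
    · have : x k = y k := by
        by_contra h
        exact hk (huniq k h)
      simp [flip, Function.update_of_ne hk, this]
  · rintro ⟨i, rfl⟩
    exact flip_adj i x

theorem wt_flip_false (x : Fin m → Bool) (i : Fin m) (h : x i = false) :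
    wt (flip i x) = wt x + 1 := by
  unfold wt
  have h1 : Finset.univ.filter (fun k => flip i x k = true) =
      insert i (Finset.univ.filter (fun k => x k = true)) := by
    ext k
    simp only [Finset.mem_filter, Finset.mem_univ, true_and, Finset.mem_insert]
    by_cases hk : k = i
    · subst hk
      simp [flip, h]
    · simp [flip, Function.update_of_ne hk, hk]
  rw [h1, Finset.card_insert_of_notMem]
  simp [h]

theorem wt_flip_true (x : Fin m → Bool) (i : Fin m) (h : x i = true) :
    wt (flip i x) + 1 = wt x := by
  have h1 : flip i x i = false := by simp [flip, h]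
  have h2 := wt_flip_false (flip i x) i h1
  rw [flip_flip] at h2
  exact h2.symm

theorem flip_injective_left (x : Fin m → Bool) : Function.Injective (fun i => flip i x) := by
  intro i k h
  by_contra hik
  have h1 := congrFun h i
  simp only [flip] at h1
  rw [Function.update_self, Function.update_of_ne hik] at h1
  revert h1
  cases x i <;> simp

/-- Up-neighbours. -/
def up (x : Fin m → Bool) : Finset (Fin m → Bool) :=
  (Finset.univ.filter (fun i => x i = false)).image (fun i => flip i x)

/-- Down-neighbours. -/
def down (x : Fin m → Bool) : Finset (Fin m → Bool) :=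
  (Finset.univ.filter (fun i => x i = true)).image (fun i => flip i x)

theorem card_down (x : Fin m → Bool) : (down x).card = wt x := by
  unfold down
  rw [Finset.card_image_of_injective _ (flip_injective_left x)]
  rfl

theorem card_up (x : Fin m → Bool) : (up x).card + wt x = m := by
  unfold up wt
  rw [Finset.card_image_of_injective _ (flip_injective_left x)]
  have h1 : (Finset.univ.filter (fun i => x i = false)) =
      (Finset.univ.filter (fun i => ¬ x i = true)) := by
    ext i; simp
  rw [h1, add_comm, Finset.card_filter_add_card_filter_not]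
  simp

theorem mem_up_iff (x y : Fin m → Bool) : y ∈ up x ↔ (cube m).Adj x y ∧ wt y = wt x + 1 := by
  unfold up
  rw [Finset.mem_image, adj_iff_flip]
  constructor
  · rintro ⟨i, hi, rfl⟩
    rw [Finset.mem_filter] at hi
    exact ⟨⟨i, rfl⟩, wt_flip_false x i hi.2⟩
  · rintro ⟨⟨i, rfl⟩, h⟩
    refine ⟨i, ?_, rfl⟩
    rw [Finset.mem_filter]
    refine ⟨Finset.mem_univ _, ?_⟩
    by_contra hi
    have hi' : x i = true := by simpa using hi
    have := wt_flip_true x i hi'
    omega

theorem mem_down_iff (x y : Fin m → Bool) : x ∈ down y ↔ (cube m).Adj x y ∧ wt y = wt x + 1 := by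
  unfold down
  rw [Finset.mem_image, (cube m).adj_comm, adj_iff_flip]
  constructor
  · rintro ⟨i, hi, rfl⟩
    rw [Finset.mem_filter] at hi
    exact ⟨⟨i, rfl⟩, (wt_flip_true y i hi.2).symm⟩
  · rintro ⟨⟨i, rfl⟩, h⟩
    refine ⟨i, ?_, rfl⟩
    rw [Finset.mem_filter]
    refine ⟨Finset.mem_univ _, ?_⟩
    by_contra hi
    have hi' : y i = false := by simpa using hi
    have := wt_flip_false y i hi'
    omega

/-- The number of vertices of weight `k`. -/
theorem card_wt_eq (k : ℕ) :
    (Finset.univ.filter (fun x : Fin m → Bool => wt x = k)).card = m.choose k := by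
  have h1 : (Finset.powersetCard k (Finset.univ : Finset (Fin m))).card = m.choose k := by
    rw [Finset.card_powersetCard, Finset.card_univ, Fintype.card_fin]
  rw [← h1]
  apply Finset.card_bij (fun x _ => Finset.univ.filter (fun i => x i = true))
  · intro x hx
    rw [Finset.mem_filter] at hx
    rw [Finset.mem_powersetCard]
    exact ⟨Finset.subset_univ _, hx.2⟩
  · intro x _ y _ h
    funext i
    have : i ∈ Finset.univ.filter (fun i => x i = true) ↔ i ∈ Finset.univ.filter (fun i => y i = true) := by
      rw [h]
    simp only [Finset.mem_filter, Finset.mem_univ, true_and] at this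
    exact Bool.eq_iff_iff.2 this
  · intro s hs
    rw [Finset.mem_powersetCard] at hs
    refine ⟨fun i => decide (i ∈ s), ?_, ?_⟩
    · rw [Finset.mem_filter]
      refine ⟨Finset.mem_univ _, ?_⟩
      unfold wt
      rw [← hs.2]
      congr 1
      ext i
      simp
    · ext i
      simp

end Weight

/-- The graph of a successor relation. -/
def graphOf {m : ℕ} (S : (Fin m → Bool) → (Fin m → Bool) → Prop)
    (hS : ∀ x y, S x y → (cube m).Adj x y ∧ wt y = wt x + 1) : SimpleGraph (Fin m → Bool) where
  Adj x y := S x y ∨ S y x
  symm := ⟨fun _ _ h => h.symm⟩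
  loopless := ⟨by
    rintro x (h | h)
    · have := (hS x x h).2; omega
    · have := (hS x x h).2; omega⟩

theorem graphOf_mem_chainSet {m : ℕ} (S : (Fin m → Bool) → (Fin m → Bool) → Prop)
    (hS : ∀ x y, S x y → (cube m).Adj x y ∧ wt y = wt x + 1)
    (hu1 : ∀ x y y', S x y → S x y' → y = y') (hu2 : ∀ x x' y, S x y → S x' y → x = x') :
    graphOf S hS ∈ chainSet m {x | ¬ ∃ y, S x y} {y | ¬ ∃ x, S x y} := by
  have hmem : ∀ x y, y ∈ (graphOf S hS).neighborSet x ↔ S x y ∨ S y x := fun x y => Iff.rfl
  have hne : ∀ x y z, S x y → S z x → y ≠ z := by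
    intro x y z h1 h2 h
    have h3 := (hS _ _ h1).2
    have h4 := (hS _ _ h2).2
    rw [h] at h3
    omega
  refine ⟨?_, ?_, ?_, ?_, ?_, ?_, ?_⟩
  · rintro x y (h | h)
    · exact (hS _ _ h).1
    · exact (hS _ _ h).1.symm
  · intro x hT hB
    simp only [Set.mem_ofPred_eq, not_not] at hT hB
    obtain ⟨y, hy⟩ := hT
    obtain ⟨z, hz⟩ := hB
    have : (graphOf S hS).neighborSet x = {y, z} := by
      ext w
      rw [hmem, Set.mem_insert_iff, Set.mem_singleton_iff]
      constructor
      · rintro (h | h)
        · exact Or.inl (hu1 _ _ _ h hy)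
        · exact Or.inr (hu2 _ _ _ h hz)
      · rintro (rfl | rfl)
        · exact Or.inl hy
        · exact Or.inr hz
    rw [this, Set.ncard_pair (hne x y z hy hz)]
  · intro x hT hB
    simp only [Set.mem_ofPred_eq, not_not] at hT hB
    obtain ⟨z, hz⟩ := hB
    have : (graphOf S hS).neighborSet x = {z} := by
      ext w
      rw [hmem, Set.mem_singleton_iff]
      constructor
      · rintro (h | h)
        · exact absurd ⟨w, h⟩ hT
        · exact hu2 _ _ _ h hz
      · rintro rfl
        exact Or.inr hz
    rw [this, Set.ncard_singleton]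
  · intro x hT hB
    simp only [Set.mem_ofPred_eq, not_not] at hT hB
    obtain ⟨y, hy⟩ := hT
    have : (graphOf S hS).neighborSet x = {y} := by
      ext w
      rw [hmem, Set.mem_singleton_iff]
      constructor
      · rintro (h | h)
        · exact hu1 _ _ _ h hy
        · exact absurd ⟨w, h⟩ hB
      · rintro rfl
        exact Or.inl hy
    rw [this, Set.ncard_singleton]
  · intro x hT hB
    simp only [Set.mem_ofPred_eq] at hT hB
    have : (graphOf S hS).neighborSet x = ∅ := by
      ext w
      rw [hmem]
      constructor
      · rintro (h | h)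
        · exact absurd ⟨w, h⟩ hT
        · exact absurd ⟨w, h⟩ hB
      · intro h; exact absurd h (Set.notMem_empty _)
    rw [this, Set.ncard_empty]
  · have key : ∀ n x, m - wt x = n → ∃ t ∈ {x | ¬ ∃ y, S x y}, (graphOf S hS).Reachable x t := by
      intro n
      induction n with
      | zero =>
        intro x hx
        refine ⟨x, ?_, SimpleGraph.Reachable.refl x⟩
        rintro ⟨y, hy⟩
        have h1 := (hS _ _ hy).2
        have h2 := wt_le y
        have h3 := wt_le x
        omega
      | succ n ih =>
        intro x hx
        by_cases h : ∃ y, S x y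
        · obtain ⟨y, hy⟩ := h
          have h1 := (hS _ _ hy).2
          obtain ⟨t, ht1, ht2⟩ := ih y (by omega)
          refine ⟨t, ht1, SimpleGraph.Reachable.trans (SimpleGraph.Adj.reachable ?_) ht2⟩
          exact Or.inl hy
        · exact ⟨x, h, SimpleGraph.Reachable.refl x⟩
    intro x
    exact key _ x rfl
  · have key : ∀ n x, wt x = n → ∃ b ∈ {y | ¬ ∃ x, S x y}, (graphOf S hS).Reachable x b := by
      intro n
      induction n with
      | zero =>
        intro x hx
        refine ⟨x, ?_, SimpleGraph.Reachable.refl x⟩
        rintro ⟨y, hy⟩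
        have h1 := (hS _ _ hy).2
        omega
      | succ n ih =>
        intro x hx
        by_cases h : ∃ y, S y x
        · obtain ⟨y, hy⟩ := h
          have h1 := (hS _ _ hy).2
          obtain ⟨t, ht1, ht2⟩ := ih y (by omega)
          refine ⟨t, ht1, SimpleGraph.Reachable.trans (SimpleGraph.Adj.reachable ?_) ht2⟩
          exact Or.inr hy
        · exact ⟨x, h, SimpleGraph.Reachable.refl x⟩
    intro x
    exact key _ x rfl

/-- Pigeonhole. -/
theorem exists_large_fiber {α β : Type*} [Finite α] [Finite β] [Nonempty β] (f : α → β) :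
    ∃ b, Nat.card α ≤ Nat.card {a // f a = b} * Nat.card β := by
  classical
  cases nonempty_fintype α
  cases nonempty_fintype β
  obtain ⟨b, hb⟩ := Finite.exists_max (fun b => Nat.card {a // f a = b})
  refine ⟨b, ?_⟩
  have h1 : Nat.card α = ∑ c, Nat.card {a // f a = c} := by
    rw [Nat.card_congr (Equiv.sigmaFiberEquiv f).symm, Nat.card_sigma]
  rw [h1]
  calc ∑ c, Nat.card {a // f a = c} ≤ ∑ _c : β, Nat.card {a // f a = b} :=
        Finset.sum_le_sum (fun c _ => hb c)
    _ = _ := by rw [Finset.sum_const, Finset.card_univ, smul_eq_mul, mul_comm,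
        Nat.card_eq_fintype_card (α := β)]

end Pool.Agent.Lib.MP_f73734_co
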