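import Mathlib
import Pool.Agent.Lib.MP_f73734_co.Chains

/-!
The lower bound for the number of chain decompositions with prescribed ends.
-/

namespace Pool.Agent.Lib.MP_f73734_co

open Finset

section Main

variable {h : ℕ}

/-- The successor relation given by an upward matching `f` of the lower half and a downward
matching `g` of the upper part. -/
def succRel (f : {x : Fin (2 * h + 1) → Bool // wt x ≤ h} → (Fin (2 * h + 1) → Bool))
    (g : {y : Fin (2 * h + 1) → Bool // h + 2 ≤ wt y} → (Fin (2 * h + 1) → Bool))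
    (x y : Fin (2 * h + 1) → Bool) : Prop :=
  (∃ hx : wt x ≤ h, f ⟨x, hx⟩ = y) ∨ (∃ hy : h + 2 ≤ wt y, g ⟨y, hy⟩ = x)

theorem succRel_adj (f : {x : Fin (2 * h + 1) → Bool // wt x ≤ h} → (Fin (2 * h + 1) → Bool))
    (g : {y : Fin (2 * h + 1) → Bool // h + 2 ≤ wt y} → (Fin (2 * h + 1) → Bool))
    (hf : ∀ a, f a ∈ up a.1) (hg : ∀ a, g a ∈ down a.1)
    (x y : Fin (2 * h + 1) → Bool) (hxy : succRel f g x y) :
    (cube (2 * h + 1)).Adj x y ∧ wt y = wt x + 1 := by
  rcases hxy with ⟨hx, rfl⟩ | ⟨hy, rfl⟩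
  · exact (mem_up_iff _ _).1 (hf ⟨x, hx⟩)
  · exact (mem_down_iff _ _).1 (hg ⟨y, hy⟩)

theorem chain_lower (j : ℕ) (hh : h + 1 = 2 ^ j) :
    ∃ T B : Set (Fin (2 * h + 1) → Bool),
      (2 ^ j) ^ (2 ^ (2 * h + 1)) ≤
        (chainSet (2 * h + 1) T B).ncard * 1024 ^ (2 ^ (2 * h + 1)) *
          (2 ^ j) ^ ((2 * h + 1).choose (h + 1)) := by
  classical
  let V := Fin (2 * h + 1) → Bool
  let A := {x : V // wt x ≤ h}
  let A' := {y : V // h + 2 ≤ wt y}
  let Φ := {f : A → V // Function.Injective f ∧ ∀ a, f a ∈ up a.1}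
  let Ψ := {g : A' → V // Function.Injective g ∧ ∀ a, g a ∈ down a.1}
  have hcardV : Fintype.card V = 2 ^ (2 * h + 1) := by
    simp [V]
  have hΦ : (2 ^ j) ^ (Fintype.card A) ≤ Nat.card Φ * 16 ^ (2 ^ (2 * h + 1)) := by
    rw [← hcardV]
    apply inj_lower j (fun a : A => up a.1)
    · intro a
      have h1 := card_up a.1
      have h2 := a.2
      omega
    · intro y
      by_cases hy : wt y ≤ h + 1
      · calc (Finset.univ.filter (fun a : A => y ∈ up a.1)).card ≤ (down y).card := by
              apply Finset.card_le_card_of_injOn (fun a => a.1)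
              · intro a ha
                rw [Finset.mem_coe, Finset.mem_filter, mem_up_iff, ← mem_down_iff] at ha
                exact ha.2
              · intro a _ b _ hab
                exact Subtype.ext hab
          _ = wt y := card_down y
          _ ≤ 2 ^ j := by omega
      · have : (Finset.univ.filter (fun a : A => y ∈ up a.1)) = ∅ := by
          rw [Finset.filter_eq_empty_iff]
          intro a _ ha
          rw [mem_up_iff] at ha
          have h1 := a.2
          omega
        rw [this]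
        simp
  have hΨ : (2 ^ j) ^ (Fintype.card A') ≤ Nat.card Ψ * 16 ^ (2 ^ (2 * h + 1)) := by
    rw [← hcardV]
    apply inj_lower j (fun a : A' => down a.1)
    · intro a
      have h1 := card_down a.1
      have h2 := a.2
      omega
    · intro x
      by_cases hx : h + 1 ≤ wt x
      · have h3 := card_up x
        calc (Finset.univ.filter (fun a : A' => x ∈ down a.1)).card ≤ (up x).card := by
              apply Finset.card_le_card_of_injOn (fun a => a.1)
              · intro a ha
                rw [Finset.mem_coe, Finset.mem_filter, mem_down_iff, ← mem_up_iff] at ha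
                exact ha.2
              · intro a _ b _ hab
                exact Subtype.ext hab
          _ ≤ 2 ^ j := by omega
      · have : (Finset.univ.filter (fun a : A' => x ∈ down a.1)) = ∅ := by
          rw [Finset.filter_eq_empty_iff]
          intro a _ ha
          rw [mem_down_iff] at ha
          have h1 := a.2
          omega
        rw [this]
        simp
  -- pigeonhole for the ends
  let Bset : Φ → Set V := fun f => {y | ¬ (∃ a, f.1 a = y) ∧ ¬ h + 2 ≤ wt y}
  let Tset : Ψ → Set V := fun g => {x | ¬ wt x ≤ h ∧ ¬ ∃ a, g.1 a = x}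
  obtain ⟨B, hB⟩ := exists_large_fiber Bset
  obtain ⟨T, hT⟩ := exists_large_fiber Tset
  have hcardSet : Nat.card (Set V) = 2 ^ (2 ^ (2 * h + 1)) := by
    rw [Nat.card_eq_fintype_card, Fintype.card_set, hcardV]
  rw [hcardSet] at hB hT
  refine ⟨T, B, ?_⟩
  -- the injection
  have hprod : Nat.card {f : Φ // Bset f = B} * Nat.card {g : Ψ // Tset g = T} ≤
      (chainSet (2 * h + 1) T B).ncard := by
    rw [← Nat.card_prod, ← Nat.card_coe_set_eq]
    have hmem : ∀ (f : Φ) (g : Ψ), graphOf (succRel f.1 g.1)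
        (succRel_adj f.1 g.1 f.2.2 g.2.2) ∈ chainSet (2 * h + 1) (Tset g) (Bset f) := by
      intro f g
      have h1 := graphOf_mem_chainSet (succRel f.1 g.1) (succRel_adj f.1 g.1 f.2.2 g.2.2) ?_ ?_
      · have hTeq : {x | ¬ ∃ y, succRel f.1 g.1 x y} = Tset g := by
          ext x
          simp only [Set.mem_ofPred_eq, Tset, ← not_or]
          apply not_congr
          constructor
          · rintro ⟨y, ⟨hx, _⟩ | ⟨hy, hgy⟩⟩
            · exact Or.inl hx
            · exact Or.inr ⟨_, hgy⟩
          · rintro (hx | ⟨a, ha⟩)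
            · exact ⟨_, Or.inl ⟨hx, rfl⟩⟩
            · exact ⟨a.1, Or.inr ⟨a.2, ha⟩⟩
        have hBeq : {y | ¬ ∃ x, succRel f.1 g.1 x y} = Bset f := by
          ext y
          simp only [Set.mem_ofPred_eq, Bset, ← not_or]
          apply not_congr
          constructor
          · rintro ⟨x, ⟨hx, hfx⟩ | ⟨hy, _⟩⟩
            · exact Or.inl ⟨_, hfx⟩
            · exact Or.inr hy
          · rintro (⟨a, ha⟩ | hy)
            · exact ⟨a.1, Or.inl ⟨a.2, ha⟩⟩
            · exact ⟨_, Or.inr ⟨hy, rfl⟩⟩
        rw [hTeq, hBeq] at h1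
        exact h1
      · -- unique successor
        intro x y y' hy hy'
        have w1 := (succRel_adj f.1 g.1 f.2.2 g.2.2 x y hy).2
        have w2 := (succRel_adj f.1 g.1 f.2.2 g.2.2 x y' hy').2
        rcases hy with ⟨hx, h1⟩ | ⟨h0, h1⟩ <;> rcases hy' with ⟨hx', h2⟩ | ⟨h0', h2⟩
        · rw [← h1, ← h2]
        · omega
        · omega
        · have := g.2.1 (h1.trans h2.symm)
          exact congrArg Subtype.val this
      · -- unique predecessor
        intro x x' y hx hx'
        have w1 := (succRel_adj f.1 g.1 f.2.2 g.2.2 x y hx).2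
        have w2 := (succRel_adj f.1 g.1 f.2.2 g.2.2 x' y hx').2
        rcases hx with ⟨h0, h1⟩ | ⟨h0, h1⟩ <;> rcases hx' with ⟨h0', h2⟩ | ⟨h0', h2⟩
        · have := f.2.1 (h1.trans h2.symm)
          exact congrArg Subtype.val this
        · omega
        · omega
        · rw [← h1, ← h2]
    have hmem' : ∀ p : {f : Φ // Bset f = B} × {g : Ψ // Tset g = T},
        graphOf (succRel p.1.1.1 p.2.1.1)
          (succRel_adj p.1.1.1 p.2.1.1 p.1.1.2.2 p.2.1.2.2) ∈ chainSet (2 * h + 1) T B := by
      rintro ⟨⟨f, hf⟩, ⟨g, hg⟩⟩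
      have := hmem f g
      rw [hf, hg] at this
      exact this
    apply Nat.card_le_card_of_injective
      (fun p : {f : Φ // Bset f = B} × {g : Ψ // Tset g = T} =>
        (⟨_, hmem' p⟩ : chainSet (2 * h + 1) T B))
    rintro ⟨⟨f, hf⟩, ⟨g, hg⟩⟩ ⟨⟨f', hf'⟩, ⟨g', hg'⟩⟩ heq
    have heq1 : graphOf (succRel f.1 g.1) (succRel_adj f.1 g.1 f.2.2 g.2.2) =
        graphOf (succRel f'.1 g'.1) (succRel_adj f'.1 g'.1 f'.2.2 g'.2.2) :=
      congrArg Subtype.val heq
    have hadj : ∀ x y, (succRel f.1 g.1 x y ∨ succRel f.1 g.1 y x) →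
        (succRel f'.1 g'.1 x y ∨ succRel f'.1 g'.1 y x) := by
      intro x y hxy
      have h1 : (graphOf (succRel f.1 g.1) (succRel_adj f.1 g.1 f.2.2 g.2.2)).Adj x y := hxy
      rw [heq1] at h1
      exact h1
    have hS : ∀ x y, succRel f.1 g.1 x y → succRel f'.1 g'.1 x y := by
      intro x y hxy
      have w1 := (succRel_adj f.1 g.1 f.2.2 g.2.2 x y hxy).2
      rcases hadj x y (Or.inl hxy) with h2 | h2
      · exact h2
      · have w2 := (succRel_adj f'.1 g'.1 f'.2.2 g'.2.2 y x h2).2
        omega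
    have hff : f = f' := by
      apply Subtype.ext
      funext a
      have h1 : succRel f.1 g.1 a.1 (f.1 a) := Or.inl ⟨a.2, rfl⟩
      have w1 := (succRel_adj f.1 g.1 f.2.2 g.2.2 _ _ h1).2
      have ha := a.2
      rcases hS _ _ h1 with ⟨_, h3⟩ | ⟨h0, _⟩
      · exact h3.symm
      · omega
    have hgg : g = g' := by
      apply Subtype.ext
      funext a
      have h1 : succRel f.1 g.1 (g.1 a) a.1 := Or.inr ⟨a.2, rfl⟩
      have w1 := (succRel_adj f.1 g.1 f.2.2 g.2.2 _ _ h1).2
      have ha := a.2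
      rcases hS _ _ h1 with ⟨h0, _⟩ | ⟨_, h3⟩
      · omega
      · exact h3.symm
    subst hff
    subst hgg
    rfl
  -- the number of vertices
  have hcount : Fintype.card A + Fintype.card A' + (2 * h + 1).choose (h + 1) =
      2 ^ (2 * h + 1) := by
    have h1 : (Finset.univ.filter (fun x : V => wt x ≤ h)).card +
        (Finset.univ.filter (fun x : V => ¬ wt x ≤ h)).card = 2 ^ (2 * h + 1) := by
      rw [Finset.card_filter_add_card_filter_not, Finset.card_univ, hcardV]
    have h2 : ((Finset.univ.filter (fun x : V => ¬ wt x ≤ h)).filter (fun x => wt x = h + 1)).card +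
        ((Finset.univ.filter (fun x : V => ¬ wt x ≤ h)).filter (fun x => ¬ wt x = h + 1)).card =
        (Finset.univ.filter (fun x : V => ¬ wt x ≤ h)).card :=
      Finset.card_filter_add_card_filter_not _
    have h3 : (Finset.univ.filter (fun x : V => ¬ wt x ≤ h)).filter (fun x => wt x = h + 1) =
        Finset.univ.filter (fun x : V => wt x = h + 1) := by
      ext x
      simp only [Finset.mem_filter, Finset.mem_univ, true_and]
      constructor
      · intro h; exact h.2
      · intro h; exact ⟨by omega, h⟩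
    have h4 : (Finset.univ.filter (fun x : V => ¬ wt x ≤ h)).filter (fun x => ¬ wt x = h + 1) =
        Finset.univ.filter (fun x : V => h + 2 ≤ wt x) := by
      ext x
      simp only [Finset.mem_filter, Finset.mem_univ, true_and]
      omega
    have h5 : Fintype.card A = (Finset.univ.filter (fun x : V => wt x ≤ h)).card :=
      Fintype.card_subtype _
    have h6 : Fintype.card A' = (Finset.univ.filter (fun x : V => h + 2 ≤ wt x)).card :=
      Fintype.card_subtype _
    have h7 := card_wt_eq (m := 2 * h + 1) (h + 1)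
    rw [h3, h4, h7] at h2
    omega
  set N := 2 ^ (2 * h + 1) with hN
  set c := (chainSet (2 * h + 1) T B).ncard
  set a := (2 * h + 1).choose (h + 1)
  calc (2 ^ j) ^ N = (2 ^ j) ^ (Fintype.card A) * (2 ^ j) ^ (Fintype.card A') * (2 ^ j) ^ a := by
        rw [← pow_add, ← pow_add, hcount]
    _ ≤ (Nat.card Φ * 16 ^ N) * (Nat.card Ψ * 16 ^ N) * (2 ^ j) ^ a :=
        Nat.mul_le_mul_right _ (Nat.mul_le_mul hΦ hΨ)
    _ ≤ ((Nat.card {f : Φ // Bset f = B} * 2 ^ N) * 16 ^ N) *
          ((Nat.card {g : Ψ // Tset g = T} * 2 ^ N) * 16 ^ N) * (2 ^ j) ^ a :=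
        Nat.mul_le_mul_right _ (Nat.mul_le_mul (Nat.mul_le_mul_right _ hB)
          (Nat.mul_le_mul_right _ hT))
    _ = (Nat.card {f : Φ // Bset f = B} * Nat.card {g : Ψ // Tset g = T}) * 1024 ^ N *
          (2 ^ j) ^ a := by
        rw [show (1024 : ℕ) = (2 * 16) * (2 * 16) by norm_num, mul_pow, mul_pow]
        ring
    _ ≤ c * 1024 ^ N * (2 ^ j) ^ a :=
        Nat.mul_le_mul_right _ (Nat.mul_le_mul_right _ hprod)

end Main

end Pool.Agent.Lib.MP_f73734_co
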