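import Mathlib
import Pool.Agent.Lib.MP_f73734_co.Assembly

/-!
The number of Hamiltonian circuits of the cube is at least a power of the number of path systems.
-/

namespace Pool.Agent.Lib.MP_f73734_co

open Finset

/-- The product of two cubes is a cube. -/
def prodHom (m s : ℕ) : (cube m).boxProd (cube s) →g cube (m + s) where
  toFun p := Fin.append p.1 p.2
  map_rel' := by
    rintro ⟨x, ℓ⟩ ⟨y, ℓ'⟩ h
    rw [SimpleGraph.boxProd_adj] at h
    rcases h with ⟨⟨i, hi, huniq⟩, h⟩ | ⟨⟨i, hi, huniq⟩, h⟩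
    · simp only at h hi huniq ⊢
      subst h
      refine ⟨Fin.castAdd s i, ?_, ?_⟩
      · simpa using hi
      · intro j
        refine Fin.addCases ?_ ?_ j
        · intro k hk
          rw [huniq k (by simpa using hk)]
        · intro k hk
          simp at hk
    · simp only at h hi huniq ⊢
      subst h
      refine ⟨Fin.natAdd m i, ?_, ?_⟩
      · simpa using hi
      · intro j
        refine Fin.addCases ?_ ?_ j
        · intro k hk
          simp at hk
        · intro k hk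
          rw [huniq k (by simpa using hk)]

theorem prodHom_bijective (m s : ℕ) : Function.Bijective (prodHom m s) := by
  rw [Fintype.bijective_iff_injective_and_card]
  constructor
  · rintro ⟨x, ℓ⟩ ⟨y, ℓ'⟩ h
    have h' : (Fin.append x ℓ : Fin (m + s) → Bool) = Fin.append y ℓ' := h
    have h1 : x = y := by
      funext i
      have := congrFun h' (Fin.castAdd s i)
      simpa using this
    have h2 : ℓ = ℓ' := by
      funext i
      have := congrFun h' (Fin.natAdd m i)
      simpa using this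
    rw [h1, h2]
  · simp [pow_add]

theorem card_pow_le_hamCount {m s : ℕ} (hs : 2 ≤ s) (T B : Set (Fin m → Bool)) :
    (chainSet m T B).ncard ^ (2 ^ s - 2) ≤ hamCount (cube (m + s)) := by
  classical
  let i₀ : Fin s := ⟨0, by omega⟩
  let τ : (Fin s → Bool) → (Fin s → Bool) := flip i₀
  have hτ : ∀ ℓ, τ (τ ℓ) = ℓ := flip_flip i₀
  have hτadj : ∀ ℓ, (cube s).Adj ℓ (τ ℓ) := flip_adj i₀
  obtain ⟨σ, hσ, hσadj, htrans⟩ := fink_cube s τ hτ (flip_ne i₀)
  let ℓ₀ : Fin s → Bool := fun _ => false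
  let Outer := {ℓ : Fin s → Bool // ¬ (ℓ = ℓ₀ ∨ ℓ = τ ℓ₀)}
  have hcardOuter : Nat.card Outer = 2 ^ s - 2 := by
    have h1 : Fintype.card {ℓ : Fin s → Bool // (ℓ = ℓ₀ ∨ ℓ = τ ℓ₀)} = 2 := by
      rw [Fintype.card_subtype]
      have : (Finset.univ.filter (fun ℓ => ℓ = ℓ₀ ∨ ℓ = τ ℓ₀)) = {ℓ₀, τ ℓ₀} := by
        ext ℓ; simp
      rw [this, Finset.card_pair (flip_ne i₀ ℓ₀).symm]
    have h2 : Fintype.card Outer = Fintype.card (Fin s → Bool) -
        Fintype.card {ℓ : Fin s → Bool // (ℓ = ℓ₀ ∨ ℓ = τ ℓ₀)} := Fintype.card_subtype_compl _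
    rw [Nat.card_eq_fintype_card, h2, h1, Fintype.card_fun, Fintype.card_bool, Fintype.card_fin]
  have hex : ∀ c : Outer → chainSet m T B, ∃ H : SimpleGraph ((Fin m → Bool) × (Fin s → Bool)),
      H ≤ (cube m).boxProd (cube s) ∧ H.Connected ∧ (∀ w, (H.neighborSet w).ncard = 2) ∧
      ∀ (ℓ : Outer), ∀ x y, H.Adj (x, ℓ.1) (y, ℓ.1) ↔ (c ℓ).1.Adj x y := by
    intro c
    obtain ⟨H, h1, h2, h3, h4⟩ := exists_ham_of_family hs T B τ σ hτ hτadj hσ hσadj htrans ℓ₀
      (fun ℓ => if h : ¬ (ℓ = ℓ₀ ∨ ℓ = τ ℓ₀) then (c ⟨ℓ, h⟩).1 else ⊥) (by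
        intro ℓ hℓ
        rw [dif_pos hℓ]
        exact (c ⟨ℓ, hℓ⟩).2)
    refine ⟨H, h1, h2, h3, ?_⟩
    intro ℓ x y
    have := h4 ℓ.1 ℓ.2 x y
    rw [dif_pos ℓ.2] at this
    exact this
  choose F hF1 hF2 hF3 hF4 using hex
  have hinj : Function.Injective F := by
    intro c c' h
    funext ℓ
    apply Subtype.ext
    ext x y
    rw [← hF4 c ℓ x y, ← hF4 c' ℓ x y, h]
  have h1 := le_hamCount ((cube m).boxProd (cube s)) F hF1 hF2 hF3 hinj
  rw [Nat.card_fun, hcardOuter, Nat.card_coe_set_eq] at h1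
  exact h1.trans (hamCount_le_of_hom _ _ (prodHom m s) (prodHom_bijective m s))

/-- The cube of dimension at least two has a Hamiltonian circuit. -/
theorem one_le_hamCount {s : ℕ} (hs : 2 ≤ s) : 1 ≤ hamCount (cube s) := by
  classical
  let i₀ : Fin s := ⟨0, by omega⟩
  let τ : (Fin s → Bool) → (Fin s → Bool) := flip i₀
  have hτ : ∀ ℓ, τ (τ ℓ) = ℓ := flip_flip i₀
  have hτadj : ∀ ℓ, (cube s).Adj ℓ (τ ℓ) := flip_adj i₀
  obtain ⟨σ, hσ, hσadj, htrans⟩ := fink_cube s τ hτ (flip_ne i₀)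
  have hτσ : ∀ ℓ, τ ℓ ≠ σ ℓ := tau_ne_sigma hs τ σ hτ hσ htrans
  let H : SimpleGraph (Fin s → Bool) :=
    { Adj := fun u v => v = τ u ∨ v = σ u
      symm := ⟨by
        rintro u v (h | h)
        · left; rw [h, hτ]
        · right; rw [h, hσ]⟩
      loopless := ⟨by
        rintro u (h | h)
        · exact flip_ne i₀ u h.symm
        · have := hσadj u
          rw [← h] at this
          exact (cube s).loopless.irrefl u this⟩ }
  have h1 := le_hamCount (α := Unit) (cube s) (fun _ => H) ?_ ?_ ?_ (fun _ _ _ => rfl)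
  · simpa using h1
  · rintro _ u v (h | h)
    · rw [h]; exact hτadj u
    · rw [h]; exact hσadj u
  · intro _
    refine ⟨?_⟩
    intro u v
    refine htrans (fun w => H.Reachable u w) ?_ ?_ u v (SimpleGraph.Reachable.refl u)
    · intro a ha
      exact ha.trans (SimpleGraph.Adj.reachable (Or.inl rfl))
    · intro a ha
      exact ha.trans (SimpleGraph.Adj.reachable (Or.inr rfl))
  · intro _ w
    have : H.neighborSet w = {τ w, σ w} := by
      ext v
      simp only [SimpleGraph.mem_neighborSet, Set.mem_insert_iff, Set.mem_singleton_iff]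
      exact Iff.rfl
    rw [this, Set.ncard_pair (hτσ w)]

end Pool.Agent.Lib.MP_f73734_co
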