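import Mathlib
import Pool.Agent.Lib.MP_f73734_co.ChainLower
import Pool.Agent.Lib.MP_f73734_co.Counting

/-!
The final estimates.
-/

namespace Pool.Agent.Lib.MP_f73734_co

open Finset

theorem centralBinom_sq_le (n : ℕ) : (2 * n + 1) * n.centralBinom ^ 2 ≤ 16 ^ n := by
  induction n with
  | zero => simp
  | succ n ih =>
    have h1 : (n + 1) * (n + 1).centralBinom = 2 * (2 * n + 1) * n.centralBinom :=
      Nat.succ_mul_centralBinom_succ n
    have h2 : (n + 1) ^ 2 * ((2 * (n + 1) + 1) * (n + 1).centralBinom ^ 2) ≤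
        (n + 1) ^ 2 * 16 ^ (n + 1) := by
      calc (n + 1) ^ 2 * ((2 * (n + 1) + 1) * (n + 1).centralBinom ^ 2)
          = (2 * n + 3) * ((n + 1) * (n + 1).centralBinom) ^ 2 := by ring
        _ = (2 * n + 3) * (2 * (2 * n + 1) * n.centralBinom) ^ 2 := by rw [h1]
        _ = (4 * (2 * n + 3) * (2 * n + 1)) * ((2 * n + 1) * n.centralBinom ^ 2) := by ring
        _ ≤ (16 * (n + 1) ^ 2) * ((2 * n + 1) * n.centralBinom ^ 2) :=
            Nat.mul_le_mul_right _ (by nlinarith)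
        _ ≤ (16 * (n + 1) ^ 2) * 16 ^ n := Nat.mul_le_mul_left _ ih
        _ = _ := by ring
    exact Nat.le_of_mul_le_mul_left h2 (by positivity)

theorem sq_le_two_pow (j : ℕ) : j ^ 2 ≤ 2 * 2 ^ j + 1 := by
  have h : ∀ k : ℕ, (k + 4) ^ 2 ≤ 2 ^ (k + 4) := by
    intro k
    induction k with
    | zero => norm_num
    | succ k ih =>
      have h1 : 2 ^ (k + 1 + 4) = 2 * 2 ^ (k + 4) := by ring
      have h2 : 2 * (k + 4) ^ 2 = (k + 1 + 4) ^ 2 + (k ^ 2 + 6 * k + 7) := by ring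
      omega
  rcases Nat.lt_or_ge j 4 with hj | hj
  · interval_cases j <;> norm_num
  · obtain ⟨k, rfl⟩ := Nat.exists_eq_add_of_le' hj
    have := h k
    omega

theorem mul_choose_le (h j : ℕ) (hh : h + 1 = 2 ^ j) :
    j * (2 * h + 1).choose (h + 1) ≤ 2 ^ (2 * h + 1) := by
  have h1 := centralBinom_sq_le (h + 1)
  have h2 : (h + 1).centralBinom = 2 * (2 * h + 1).choose (h + 1) := by
    rw [Nat.centralBinom_eq_two_mul_choose, show 2 * (h + 1) = (2 * h + 1) + 1 by ring,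
      Nat.choose_succ_succ, ← Nat.choose_symm_half h]
    ring
  have h3 : j ^ 2 ≤ 2 * (h + 1) + 1 := by rw [hh]; exact sq_le_two_pow j
  have h4 : (j * (h + 1).centralBinom) ^ 2 ≤ (4 ^ (h + 1)) ^ 2 := by
    calc (j * (h + 1).centralBinom) ^ 2 = j ^ 2 * (h + 1).centralBinom ^ 2 := by ring
      _ ≤ (2 * (h + 1) + 1) * (h + 1).centralBinom ^ 2 := Nat.mul_le_mul_right _ h3
      _ ≤ 16 ^ (h + 1) := h1
      _ = (4 ^ (h + 1)) ^ 2 := by rw [← pow_mul, mul_comm, pow_mul]; norm_num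
  have h5 : j * (h + 1).centralBinom ≤ 4 ^ (h + 1) :=
    le_of_pow_le_pow_left₀ (by norm_num) (by positivity) h4
  have h6 : 4 ^ (h + 1) = 2 * 2 ^ (2 * h + 1) := by
    rw [show (4 : ℕ) = 2 ^ 2 by norm_num, ← pow_mul, ← pow_succ']
    congr 1
  rw [h2, h6] at h5
  nlinarith

/-- Clean lower bound for the number of path systems. -/
theorem chain_lower' (h j : ℕ) (hh : h + 1 = 2 ^ j) (hj : 11 ≤ j) :
    ∃ T B : Set (Fin (2 * h + 1) → Bool),
      2 ^ ((j - 11) * 2 ^ (2 * h + 1)) ≤ (chainSet (2 * h + 1) T B).ncard := by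
  obtain ⟨T, B, hTB⟩ := chain_lower j hh
  refine ⟨T, B, ?_⟩
  set N := 2 ^ (2 * h + 1) with hN
  set c := (chainSet (2 * h + 1) T B).ncard
  have h1 : (2 ^ j) ^ ((2 * h + 1).choose (h + 1)) ≤ 2 ^ N := by
    rw [← pow_mul]
    exact Nat.pow_le_pow_right (by norm_num) (mul_choose_le h j hh)
  have h2 : (2 ^ j) ^ N ≤ c * 2 ^ (11 * N) := by
    calc (2 ^ j) ^ N ≤ c * 1024 ^ N * (2 ^ j) ^ ((2 * h + 1).choose (h + 1)) := hTB
      _ ≤ c * 1024 ^ N * 2 ^ N := Nat.mul_le_mul_left _ h1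
      _ = c * 2 ^ (11 * N) := by
        rw [show (1024 : ℕ) = 2 ^ 10 by norm_num, ← pow_mul, mul_assoc, ← pow_add]
        congr 2
        ring
  have h3 : (2 ^ j) ^ N = 2 ^ ((j - 11) * N) * 2 ^ (11 * N) := by
    rw [← pow_mul, ← pow_add]
    congr 1
    rw [← add_mul, Nat.sub_add_cancel hj]
  rw [h3] at h2
  exact Nat.le_of_mul_le_mul_right h2 (by positivity)

/-- The lower bound in terms of powers of two. -/
theorem ham_lower_pow (j n : ℕ) (hj : 11 ≤ j) (hn : 2 ^ (j + 2) ≤ n) :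
    2 ^ ((j - 13) * 2 ^ n) ≤ hamCount (cube n) := by
  obtain ⟨h, hh⟩ : ∃ h, h + 1 = 2 ^ j := ⟨2 ^ j - 1, Nat.sub_add_cancel Nat.one_le_two_pow⟩
  have hpow2 : 2 ^ (j + 2) = 4 * (h + 1) := by rw [hh]; ring
  obtain ⟨s, hs⟩ : ∃ s, n = (2 * h + 1) + s := ⟨n - (2 * h + 1), by omega⟩
  obtain ⟨T, B, hTB⟩ := chain_lower' h j hh hj
  have hjlt : j < 2 ^ j := Nat.lt_two_pow_self
  have hs2 : 2 ≤ s := by omega
  have hsj : j ≤ s := by omega
  have h1 := card_pow_le_hamCount hs2 T B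
  rw [← hs] at h1
  refine le_trans ?_ h1
  calc 2 ^ ((j - 13) * 2 ^ n) ≤ 2 ^ (((j - 11) * 2 ^ (2 * h + 1)) * (2 ^ s - 2)) := by
        apply Nat.pow_le_pow_right (by norm_num)
        rw [hs, pow_add]
        have h2 : j < 2 ^ s := lt_of_lt_of_le hjlt (Nat.pow_le_pow_right (by norm_num) hsj)
        have h3 : 2 ≤ 2 ^ s := by omega
        obtain ⟨u, hu⟩ := Nat.exists_eq_add_of_le h3
        rw [hu, Nat.add_sub_cancel_left]
        rcases Nat.lt_or_ge j 13 with hj13 | hj13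
        · have : j - 13 = 0 := by omega
          rw [this]; simp
        · obtain ⟨t, rfl⟩ := Nat.exists_eq_add_of_le hj13
          have e1 : 13 + t - 13 = t := by omega
          have e2 : 13 + t - 11 = t + 2 := by omega
          rw [e1, e2]
          have h4 : t * (2 + u) ≤ (t + 2) * u := by
            rw [hu] at h2
            nlinarith
          calc t * (2 ^ (2 * h + 1) * (2 + u)) = 2 ^ (2 * h + 1) * (t * (2 + u)) := by ring
            _ ≤ 2 ^ (2 * h + 1) * ((t + 2) * u) := Nat.mul_le_mul_left _ h4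
            _ = _ := by ring
    _ = (2 ^ ((j - 11) * 2 ^ (2 * h + 1))) ^ (2 ^ s - 2) := by rw [pow_mul]
    _ ≤ _ := Nat.pow_le_pow_left hTB _

/-- **Main theorem.** -/
theorem ham_lower (n : ℕ) (hn : 2 ≤ n) :
    ((n : ℝ) / 65536) ^ (2 ^ n) < (hamCount (cube n) : ℝ) := by
  rcases Nat.lt_or_ge n (2 ^ 13) with hsmall | hlarge
  · have h1 : ((n : ℝ) / 65536) ^ (2 ^ n) < 1 := by
      apply pow_lt_one₀ (by positivity)
      · rw [div_lt_one (by norm_num)]
        have : (n : ℝ) < 2 ^ 13 := by exact_mod_cast hsmall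
        linarith [show (2 : ℝ) ^ 13 < 65536 by norm_num]
      · positivity
    have h2 : (1 : ℝ) ≤ hamCount (cube n) := by exact_mod_cast one_le_hamCount hn
    linarith
  · -- `2 ^ (j + 2) ≤ n < 2 ^ (j + 3)`
    have hn0 : n ≠ 0 := by omega
    set L := Nat.log 2 n with hL
    have hL1 : 2 ^ L ≤ n := Nat.pow_log_le_self 2 hn0
    have hL2 : n < 2 ^ (L + 1) := Nat.lt_pow_succ_log_self (by norm_num) n
    have hL13 : 13 ≤ L := by
      by_contra hlt
      have : 2 ^ (L + 1) ≤ 2 ^ 13 := Nat.pow_le_pow_right (by norm_num) (by omega)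
      omega
    obtain ⟨j, hj⟩ : ∃ j, L = j + 2 := ⟨L - 2, by omega⟩
    rw [hj] at hL1 hL2 hL13
    have hj11 : 11 ≤ j := by omega
    have hmain := ham_lower_pow j n hj11 hL1
    have hN : 0 < 2 ^ n := by positivity
    have h1 : (n : ℝ) / 65536 < (2 : ℝ) ^ ((j : ℤ) - 13) := by
      have h2 : (n : ℝ) < 2 ^ (j + 3) := by exact_mod_cast hL2
      rw [div_lt_iff₀ (by norm_num)]
      have h3 : (2 : ℝ) ^ ((j : ℤ) - 13) * 65536 = 2 ^ (j + 3) := by
        rw [show (65536 : ℝ) = (2 : ℝ) ^ (16 : ℤ) by norm_num, ← zpow_add₀ (by norm_num)]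
        rw [← zpow_natCast]
        congr 1
        push_cast
        ring
      rw [h3]
      exact h2
    rcases Nat.lt_or_ge j 13 with hj13 | hj13
    · have h4 : (2 : ℝ) ^ ((j : ℤ) - 13) ≤ 1 := by
        apply zpow_le_one_of_nonpos₀ (by norm_num)
        omega
      have h5 : ((n : ℝ) / 65536) ^ (2 ^ n) < 1 :=
        pow_lt_one₀ (by positivity) (lt_of_lt_of_le h1 h4) hN.ne'
      have h2 : (1 : ℝ) ≤ hamCount (cube n) := by exact_mod_cast one_le_hamCount hn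
      linarith
    · have h4 : (2 : ℝ) ^ ((j : ℤ) - 13) = ((2 ^ (j - 13) : ℕ) : ℝ) := by
        rw [Nat.cast_pow, ← zpow_natCast]
        congr 1
        omega
      rw [h4] at h1
      calc ((n : ℝ) / 65536) ^ (2 ^ n) < (((2 ^ (j - 13) : ℕ) : ℝ)) ^ (2 ^ n) :=
            pow_lt_pow_left₀ h1 (by positivity) hN.ne'
        _ = ((2 ^ ((j - 13) * 2 ^ n) : ℕ) : ℝ) := by
            rw [pow_mul]; push_cast; rfl
        _ ≤ _ := by exact_mod_cast hmain

end Pool.Agent.Lib.MP_f73734_co
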